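import Pool.Agent.FC640.Data

/-!
# The explicit labelled cycle as a `LabCycle`
-/

namespace Pool.Agent.FC640

open Finset

/-- The group of marks: one leaf in each of the circles with 7, 8, 9, 10, 11 leaves. -/
abbrev Marks := ZMod 7 × ZMod 8 × ZMod 9 × ZMod 10 × ZMod 11

/-- The simplices: `120` simplices times the marks. -/
abbrev UU := Fin 120 × Marks

/-- The marked leaf of level `p`. -/
def mark (m : Marks) : ℕ → ℕ
  | 0 => m.1.val
  | 1 => m.2.1.val
  | 2 => m.2.2.1.val
  | 3 => m.2.2.2.1.val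
  | _ => m.2.2.2.2.val

/-- Five rotations as an element of the group of marks. -/
def rotV (v : ℕ → ℕ) : Marks :=
  ((v 0 : ZMod 7), (v 1 : ZMod 8), (v 2 : ZMod 9), (v 3 : ZMod 10), (v 4 : ZMod 11))

theorem mark_add (m : Marks) (v : ℕ → ℕ) (p : ℕ) (hp : p < 5) :
    mark (m + rotV v) p = (mark m p + v p) % (7 + p) := by
  have h : p = 0 ∨ p = 1 ∨ p = 2 ∨ p = 3 ∨ p = 4 := by omega
  rcases h with rfl | rfl | rfl | rfl | rfl
  · show (m.1 + (v 0 : ZMod 7)).val = _
    rw [ZMod.val_add, ZMod.val_natCast, Nat.add_mod_mod]; rfl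
  · show (m.2.1 + (v 1 : ZMod 8)).val = _
    rw [ZMod.val_add, ZMod.val_natCast, Nat.add_mod_mod]; rfl
  · show (m.2.2.1 + (v 2 : ZMod 9)).val = _
    rw [ZMod.val_add, ZMod.val_natCast, Nat.add_mod_mod]; rfl
  · show (m.2.2.2.1 + (v 3 : ZMod 10)).val = _
    rw [ZMod.val_add, ZMod.val_natCast, Nat.add_mod_mod]; rfl
  · show (m.2.2.2.2 + (v 4 : ZMod 11)).val = _
    rw [ZMod.val_add, ZMod.val_natCast, Nat.add_mod_mod]; rfl

theorem mark_lt (m : Marks) (p : ℕ) (hp : p < 5) : mark m p < 7 + p := by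
  have h : p = 0 ∨ p = 1 ∨ p = 2 ∨ p = 3 ∨ p = 4 := by omega
  rcases h with rfl | rfl | rfl | rfl | rfl
  · exact ZMod.val_lt m.1
  · exact ZMod.val_lt m.2.1
  · exact ZMod.val_lt m.2.2.1
  · exact ZMod.val_lt m.2.2.2.1
  · exact ZMod.val_lt m.2.2.2.2

/-! ### Consequences of the checks -/

theorem struct_spec {u : ℕ} (hu : u < 120) :
    LOK (Lf u) ∧ ∀ i < 5, Nf u i < 120 ∧ Nf (Nf u i) i = u ∧ Sf (Nf u i) = !Sf u ∧
      ∀ p < 5, (Rf u i p + Rf (Nf u i) i p) % (7 + p) = 0 := by
  have h := allB_spec chkStruct_true u hu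
  simp only [Bool.and_eq_true] at h
  obtain ⟨⟨h1, h2⟩, h3⟩ := h
  refine ⟨⟨?_, ?_⟩, ?_⟩
  · intro k hk
    have := allB_spec h1 k hk
    simpa using this
  · intro j hj k hk he
    have := allB_spec (allB_spec h2 j hj) k hk
    simp only [Bool.or_eq_true, Bool.not_eq_true'] at this
    rcases this with h | h
    · simpa using h
    · rw [he] at h; simp at h
  · intro i hi
    have := allB_spec h3 i hi
    simp only [Bool.and_eq_true] at this
    obtain ⟨⟨⟨a1, a2⟩, a3⟩, a4⟩ := this
    refine ⟨by simpa using a1, by simpa using a2, by simpa using a3, ?_⟩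
    intro p hp
    have := allB_spec a4 p hp
    simpa using this

theorem lab_spec {u i p d m : ℕ} (hu : u < 120) (hi : i < 5) (hp : p < 5) (hd : d < 5 - p)
    (hpi : p ≠ i) (hqi : p + d ≠ i) (hm : m < 7 + p) :
    mask (Lf (Nf u i)) p d ((m + Rf u i p) % (7 + p)) = mask (Lf u) p d m ∧
    endp (Lf (Nf u i)) p d ((m + Rf u i p) % (7 + p)) % (7 + (p + d)) =
      (endp (Lf u) p d m + Rf u i (p + d)) % (7 + (p + d)) := by
  have h := allB_spec (allB_spec (allB_spec (allB_spec chkAll_true u hu) i hi) p hp) d hd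
  simp only [Bool.or_eq_true] at h
  rcases h with (h | h) | h
  · exact absurd (by simpa using h) hpi
  · exact absurd (by simpa using h) hqi
  · have h2 := allB_spec h m hm
    unfold chkLab at h2
    rw [Bool.and_eq_true] at h2
    have a := h2.1
    have b := h2.2
    rw [maskC_eq, maskC_eq] at a
    rw [endC_eq, endC_eq] at b
    exact ⟨by simpa using a, by simpa using b⟩

/-- The neighbouring simplex. -/
def tab (i : Fin 5) (u : Fin 120) : Fin 120 := ⟨Nf u i, ((struct_spec u.2).2 i i.2).1⟩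

/-- The facet pairings. -/
def phiU (i : Fin 5) (x : UU) : UU := (tab i x.1, x.2 + rotV (Rf x.1 i))

theorem mark_phi (i : Fin 5) (x : UU) (p : ℕ) (hp : p < 5) :
    mark (phiU i x).2 p = (mark x.2 p + Rf x.1 i p) % (7 + p) := mark_add _ _ p hp

/-- The labels. -/
noncomputable def labU (p q : Fin 5) (x : UU) : Lifts :=
  if p ≤ q then labL (Lf x.1) p (q.val - p.val) (mark x.2 p) (mark x.2 q) else 1

theorem rotV_add (v w : ℕ → ℕ) : rotV v + rotV w = rotV (fun p => v p + w p) := by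
  simp [rotV]

theorem rotV_zero {v : ℕ → ℕ} (h : ∀ p < 5, v p % (7 + p) = 0) : rotV v = 0 := by
  have e : ∀ (n p : ℕ), p < 5 → n = 7 + p → ((v p : ℕ) : ZMod n) = 0 := by
    intro n p hp hn
    rw [ZMod.natCast_eq_zero_iff, hn]
    exact Nat.dvd_of_mod_eq_zero (h p hp)
  unfold rotV
  rw [e 7 0 (by norm_num) rfl, e 8 1 (by norm_num) rfl, e 9 2 (by norm_num) rfl,
    e 10 3 (by norm_num) rfl, e 11 4 (by norm_num) rfl]
  rfl

theorem off_eq {a a' r m n : ℕ} (hm : m < n) (h : a' % n = (a + r) % n) :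
    (a' + n - (m + r) % n) % n = (a + n - m) % n := by
  have hn : 0 < n := by omega
  have hm' : (m + r) % n < n := Nat.mod_lt _ hn
  have h1 : (a' + n - (m + r) % n) + (m + r) % n ≡ (a + n - m) + (m + r) % n [MOD n] := by
    have e1 : (a' + n - (m + r) % n) + (m + r) % n = a' + n := by omega
    rw [e1]
    have e2 : (a + n - m) + (m + r) % n ≡ (a + n - m) + (m + r) [MOD n] :=
      Nat.ModEq.add_left _ (Nat.mod_modEq _ _)
    have e3 : (a + n - m) + (m + r) = (a + r) + n := by omega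
    rw [e3] at e2
    exact (Nat.ModEq.add_right n (show a' ≡ a + r [MOD n] from h)).trans e2.symm
  exact Nat.ModEq.add_right_cancel' _ h1

/-- The explicit labelled cycle. -/
noncomputable def theCycle : LabCycle Lifts where
  U := UU
  fin := inferInstance
  sg := fun x => Sf x.1
  phi := phiU
  lab := labU
  phi_phi := by
    intro i x
    have h := (struct_spec x.1.2).2 i i.2
    apply Prod.ext
    · exact Fin.ext h.2.1
    · show x.2 + rotV (Rf x.1 i) + rotV (Rf (Nf x.1 i) i) = x.2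
      rw [add_assoc, rotV_add, rotV_zero h.2.2.2, add_zero]
  sg_phi := by
    intro i x
    exact ((struct_spec x.1.2).2 i i.2).2.2.1
  lab_phi := by
    intro i p q x hp hq
    unfold labU
    by_cases hpq : p ≤ q
    · rw [if_pos hpq, if_pos hpq]
      have hpq' : p.val ≤ q.val := hpq
      obtain ⟨d, hd⟩ : ∃ d, q.val = p.val + d := ⟨q.val - p.val, by omega⟩
      have hd' : q.val - p.val = d := by omega
      have hq5 := q.2
      rw [hd', hd]
      have hpi : p.val ≠ i.val := fun e => hp (Fin.ext e)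
      have hqi : p.val + d ≠ i.val := fun e => hq (Fin.ext (hd.trans e))
      have hs := lab_spec x.1.2 i.2 p.2 (d := d) (by omega) hpi hqi (mark_lt x.2 p p.2)
      have hN : Nf x.1 i < 120 := ((struct_spec x.1.2).2 i i.2).1
      symm
      have e1 := mark_phi i x p p.2
      have e2 := mark_phi i x (p.val + d) (by omega)
      rw [e1, e2]
      show labL (Lf x.1) p d (mark x.2 p) (mark x.2 (p.val + d)) = labL (Lf (Nf x.1 i)) p d
        ((mark x.2 p + Rf x.1 i p) % (7 + p)) ((mark x.2 (p.val + d) + Rf x.1 i (p.val + d)) %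
          (7 + (p.val + d)))
      apply labL_eq (struct_spec x.1.2).1 (struct_spec hN).1 _ _ (by omega) _ _ _ _
        (mark_lt _ _ p.2) (mark_lt _ _ (by omega)) (Nat.mod_lt _ (by omega))
        (Nat.mod_lt _ (by omega)) hs.1.symm
      exact (off_eq (mark_lt _ _ (by omega)) hs.2).symm
    · rw [if_neg hpq, if_neg hpq]

theorem cnorm_zero (L : ℕ → ℕ) (p m : ℕ) : cnorm L p 0 m m = 0 := by
  unfold cnorm endp; simp

/-- The Euler data of the explicit cycle. -/
noncomputable def theEuler : EulerData theCycle where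
  E := fun p q r x =>
    cnorm (Lf x.1) p (r.val - p.val) (mark x.2 p) (mark x.2 r) -
      cnorm (Lf x.1) p (q.val - p.val) (mark x.2 p) (mark x.2 q) -
      cnorm (Lf x.1) q (r.val - q.val) (mark x.2 q) (mark x.2 r)
  comp := by
    intro p q r x hpq hqr
    have hpr := hpq.trans hqr
    show labU q r x * labU p q x = _ * labU p r x
    unfold labU
    rw [if_pos hpq, if_pos hqr, if_pos hpr]
    have hpq' : p.val ≤ q.val := hpq
    have hqr' : q.val ≤ r.val := hqr
    have h := labL_comp (Lf x.1) p (q.val - p.val) (r.val - q.val) (mark x.2 p) (mark x.2 q)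
      (mark x.2 r)
    have e1 : p.val + (q.val - p.val) = q.val := by omega
    have e2 : (q.val - p.val) + (r.val - q.val) = r.val - p.val := by omega
    rw [e1, e2] at h
    exact h
  deg1 := by
    intro p q x _
    show cnorm (Lf x.1) p (q.val - p.val) (mark x.2 p) (mark x.2 q) -
      cnorm (Lf x.1) p (p.val - p.val) (mark x.2 p) (mark x.2 p) -
      cnorm (Lf x.1) p (q.val - p.val) (mark x.2 p) (mark x.2 q) = 0
    rw [Nat.sub_self, cnorm_zero]; ring
  deg2 := by
    intro p q x _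
    show cnorm (Lf x.1) p (q.val - p.val) (mark x.2 p) (mark x.2 q) -
      cnorm (Lf x.1) p (q.val - p.val) (mark x.2 p) (mark x.2 q) -
      cnorm (Lf x.1) q (q.val - q.val) (mark x.2 q) (mark x.2 q) = 0
    rw [Nat.sub_self, cnorm_zero]; ring

/-! ### Connectedness -/

/-- reachability by facet pairings -/
def RU (x y : UU) : Prop := Relation.ReflTransGen (fun a b => ∃ i, b = phiU i a) x y

theorem RU.symm {x y : UU} (h : RU x y) : RU y x := by
  induction h with
  | refl => exact Relation.ReflTransGen.refl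
  | tail _ h2 ih =>
    obtain ⟨i, rfl⟩ := h2
    exact Relation.ReflTransGen.head ⟨i, (theCycle.phi_phi i _).symm⟩ ih

theorem reach_zero : ∀ (n : ℕ) (x : UU), Df x.1 ≤ n → ∃ m, RU x (0, m) := by
  have hc := chkConn_true
  unfold chkConn at hc
  have hspec : ∀ u < 120, u ≠ 0 → Pf u < 5 ∧ Df (Nf u (Pf u)) < Df u := by
    intro u hu hu0
    rw [Bool.and_eq_true] at hc
    have h2 := allB_spec hc.2 u hu
    simp only [Bool.or_eq_true, Bool.and_eq_true] at h2
    rcases h2 with h2 | h2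
    · exact absurd (by simpa using h2) hu0
    · exact ⟨by simpa using h2.1, by simpa using h2.2⟩
  intro n
  induction n with
  | zero =>
    intro x hx
    by_cases h0 : x.1.val = 0
    · refine ⟨x.2, ?_⟩
      have : x = (0, x.2) := Prod.ext (Fin.ext h0) rfl
      rw [← this]; exact Relation.ReflTransGen.refl
    · have := (hspec x.1 x.1.2 h0).2
      omega
  | succ n ih =>
    intro x hx
    by_cases h0 : x.1.val = 0
    · refine ⟨x.2, ?_⟩
      have : x = (0, x.2) := Prod.ext (Fin.ext h0) rfl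
      rw [← this]; exact Relation.ReflTransGen.refl
    · obtain ⟨h1, h2⟩ := hspec x.1 x.1.2 h0
      obtain ⟨m, hm⟩ := ih (phiU ⟨Pf x.1, h1⟩ x) (by
        show Df (Nf x.1 (Pf x.1)) ≤ n
        omega)
      exact ⟨m, Relation.ReflTransGen.head ⟨_, rfl⟩ hm⟩

theorem walk_reach (w : List ℕ) (hw : ∀ i ∈ w, i < 5) :
    ∀ x : UU, ∃ h : endW w x.1 < 120, RU x (⟨endW w x.1, h⟩, x.2 + rotV (voltW w x.1)) := by
  induction w with
  | nil =>
    intro x
    refine ⟨x.1.2, ?_⟩
    have : rotV (voltW [] x.1) = 0 := rotV_zero (fun p _ => by simp [voltW])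
    rw [this, add_zero]
    exact Relation.ReflTransGen.refl
  | cons i w ih =>
    intro x
    have hi : i < 5 := hw i (by simp)
    obtain ⟨h, hr⟩ := ih (fun j hj => hw j (by simp [hj])) (phiU ⟨i, hi⟩ x)
    refine ⟨h, ?_⟩
    have e : (x.2 + rotV (Rf x.1 i)) + rotV (voltW w (Nf x.1 i)) =
        x.2 + rotV (voltW (i :: w) x.1) := by
      rw [add_assoc, rotV_add]; rfl
    have hr' : RU (phiU ⟨i, hi⟩ x) (⟨endW (i :: w) x.1, h⟩,
        (x.2 + rotV (Rf x.1 i)) + rotV (voltW w (Nf x.1 i))) := hr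
    rw [e] at hr'
    exact Relation.ReflTransGen.head ⟨⟨i, hi⟩, rfl⟩ hr'

theorem rotV_congr {v w : ℕ → ℕ} (h : ∀ p < 5, v p % (7 + p) = w p % (7 + p)) :
    rotV v = rotV w := by
  have e : ∀ (n p : ℕ), p < 5 → n = 7 + p → ((v p : ℕ) : ZMod n) = ((w p : ℕ) : ZMod n) := by
    intro n p hp hn
    rw [ZMod.natCast_eq_natCast_iff', hn]
    exact h p hp
  unfold rotV
  rw [e 7 0 (by norm_num) rfl, e 8 1 (by norm_num) rfl, e 9 2 (by norm_num) rfl,
    e 10 3 (by norm_num) rfl, e 11 4 (by norm_num) rfl]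

/-- one unit in the coordinate `j` -/
def unitV (j : ℕ) : ℕ → ℕ := fun p => if j = p then 1 else 0

theorem reach_unit (j : ℕ) (hj : j < 5) (m : Marks) : RU (0, m) (0, m + rotV (unitV j)) := by
  have hc := allB_spec chkLoops_true j hj
  simp only [Bool.and_eq_true] at hc
  obtain ⟨⟨h1, h2⟩, h3⟩ := hc
  have hw : ∀ i ∈ loops.getD j [], i < 5 := by
    intro i hi
    have := List.all_eq_true.1 h2 i hi
    simpa using this
  obtain ⟨h, hr⟩ := walk_reach _ hw (0, m)
  have e1 : endW (loops.getD j []) 0 = 0 := by simpa using h1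
  have e2 : rotV (voltW (loops.getD j []) 0) = rotV (unitV j) := by
    apply rotV_congr
    intro p hp
    have := allB_spec h3 p hp
    have h4 : voltW (loops.getD j []) 0 p % (7 + p) = cond (Nat.beq j p) 1 0 := by
      simpa using this
    rw [h4]
    unfold unitV
    by_cases hjp : j = p
    · subst hjp
      have hb : Nat.beq j j = true := by simp
      rw [hb, if_pos rfl, Nat.mod_eq_of_lt (by omega)]
      rfl
    · have : Nat.beq j p = false := by
        cases hb : Nat.beq j p with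
        | true => exact absurd (by simpa using hb) hjp
        | false => rfl
      rw [this, if_neg hjp]; rfl
  have e3 : ((⟨endW (loops.getD j []) ((0 : Fin 120) : ℕ), h⟩ : Fin 120)) = 0 := Fin.ext e1
  have hr' : RU (0, m) (⟨endW (loops.getD j []) ((0 : Fin 120) : ℕ), h⟩,
      m + rotV (voltW (loops.getD j []) 0)) := hr
  rw [e3, e2] at hr'
  exact hr'

theorem reach_units (j : ℕ) (hj : j < 5) (k : ℕ) (m : Marks) :
    RU (0, m) (0, m + rotV (fun p => k * unitV j p)) := by
  induction k with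
  | zero =>
    have : rotV (fun p => 0 * unitV j p) = 0 := rotV_zero (fun p _ => by simp)
    rw [this, add_zero]
    exact Relation.ReflTransGen.refl
  | succ k ih =>
    have := reach_unit j hj (m + rotV (fun p => k * unitV j p))
    rw [add_assoc, rotV_add] at this
    have e : (fun p => k * unitV j p + unitV j p) = fun p => (k + 1) * unitV j p := by
      funext p; ring
    rw [e] at this
    exact ih.trans this

theorem reach_all (m m' : Marks) : RU (0, m) (0, m') := by
  have h := fun (v : ℕ → ℕ) (m : Marks) =>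
    (((reach_units 0 (by norm_num) (v 0) m).trans
      (reach_units 1 (by norm_num) (v 1) _)).trans
      (reach_units 2 (by norm_num) (v 2) _)).trans
      ((reach_units 3 (by norm_num) (v 3) _).trans
      (reach_units 4 (by norm_num) (v 4) _))
  have h2 := h (mark (m' - m)) m
  rw [add_assoc, add_assoc, add_assoc, add_assoc, rotV_add, rotV_add, rotV_add, rotV_add] at h2
  have e : rotV (fun p => mark (m' - m) 0 * unitV 0 p + (mark (m' - m) 1 * unitV 1 p +
      (mark (m' - m) 2 * unitV 2 p + (mark (m' - m) 3 * unitV 3 p +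
        mark (m' - m) 4 * unitV 4 p)))) = m' - m := by
    unfold rotV unitV
    refine Prod.ext ?_ (Prod.ext ?_ (Prod.ext ?_ (Prod.ext ?_ ?_)))
    · show ((_ : ℕ) : ZMod 7) = (m' - m).1
      simp [mark]
    · show ((_ : ℕ) : ZMod 8) = (m' - m).2.1
      simp [mark]
    · show ((_ : ℕ) : ZMod 9) = (m' - m).2.2.1
      simp [mark]
    · show ((_ : ℕ) : ZMod 10) = (m' - m).2.2.2.1
      simp [mark]
    · show ((_ : ℕ) : ZMod 11) = (m' - m).2.2.2.2
      simp [mark]
  rw [e] at h2
  have e2 : m + (m' - m) = m' := by abel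
  rw [e2] at h2
  exact h2

theorem cycle_connected (x y : UU) : RU x y := by
  obtain ⟨m, hm⟩ := reach_zero _ x le_rfl
  obtain ⟨m', hm'⟩ := reach_zero _ y le_rfl
  exact (hm.trans (reach_all m m')).trans hm'.symm

/-! ### The sum -/

theorem sum_split {A B C D E : Type} [Fintype A] [Fintype B] [Fintype C] [Fintype D]
    [Fintype E] (f : A → B → C → ℤ) (g : C → D → E → ℤ) :
    ∑ x : A × B × C × D × E, f x.1 x.2.1 x.2.2.1 * g x.2.2.1 x.2.2.2.1 x.2.2.2.2 =
      ∑ c, (∑ a, ∑ b, f a b c) * (∑ d, ∑ e, g c d e) := by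
  have h1 : ∀ a b c, ∑ d, ∑ e, f a b c * g c d e = f a b c * ∑ d, ∑ e, g c d e := by
    intro a b c
    simp only [Finset.mul_sum]
  simp only [Fintype.sum_prod_type, h1]
  have h2 : ∀ c, (∑ a, ∑ b, f a b c) * (∑ d, ∑ e, g c d e) =
      ∑ a, ∑ b, f a b c * (∑ d, ∑ e, g c d e) := by
    intro c
    simp only [Finset.sum_mul]
  simp only [h2]
  generalize hG : (fun c => ∑ d, ∑ e, g c d e) = G
  have hG' : ∀ c, ∑ d, ∑ e, g c d e = G c := fun c => congrFun hG c
  simp only [hG']
  have e1 : ∀ a, ∑ b, ∑ c, f a b c * G c = ∑ c, ∑ b, f a b c * G c :=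
    fun a => Finset.sum_comm
  simp only [e1]
  exact Finset.sum_comm

/-- the first factor -/
def fac1 (u : ℕ) (a : ZMod 7) (b : ZMod 8) (c : ZMod 9) : ℤ :=
  cnC (Lf u) 0 2 a.val c.val - cnC (Lf u) 0 1 a.val b.val - cnC (Lf u) 1 1 b.val c.val

/-- the second factor -/
def fac2 (u : ℕ) (c : ZMod 9) (d : ZMod 10) (e : ZMod 11) : ℤ :=
  cnC (Lf u) 2 2 c.val e.val - cnC (Lf u) 2 1 c.val d.val - cnC (Lf u) 3 1 d.val e.val

theorem fac1_sum (u : ℕ) (c : ZMod 9) : ∑ a, ∑ b, fac1 u a b c =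
    (8 * sumB 7 fun m0 => cnC (Lf u) 0 2 m0 c.val) -
      (sumB 7 fun m0 => sumB 8 fun m1 => cnC (Lf u) 0 1 m0 m1) -
      (7 * sumB 8 fun m1 => cnC (Lf u) 1 1 m1 c.val) := by
  simp only [sumB_eq, fac1, Finset.sum_sub_distrib]
  congr 1
  · congr 1
    rw [Finset.mul_sum]
    apply Finset.sum_congr rfl
    intro a _
    rw [Finset.sum_const]
    simp only [Finset.card_univ, ZMod.card, nsmul_eq_mul]
    rfl
  · rw [Finset.sum_const]
    simp only [Finset.card_univ, ZMod.card, nsmul_eq_mul]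
    rfl

theorem fac2_sum (u : ℕ) (c : ZMod 9) : ∑ d, ∑ e, fac2 u c d e =
    (10 * sumB 11 fun m4 => cnC (Lf u) 2 2 c.val m4) -
      (11 * sumB 10 fun m3 => cnC (Lf u) 2 1 c.val m3) -
      (sumB 10 fun m3 => sumB 11 fun m4 => cnC (Lf u) 3 1 m3 m4) := by
  simp only [sumB_eq, fac2, Finset.sum_sub_distrib]
  congr 1
  congr 1
  · rw [Finset.sum_const]
    simp only [Finset.card_univ, ZMod.card, nsmul_eq_mul]
    rfl
  · rw [Finset.mul_sum]
    apply Finset.sum_congr rfl
    intro a _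
    rw [Finset.sum_const]
    simp only [Finset.card_univ, ZMod.card, nsmul_eq_mul]
    rfl

theorem sum_eq0 : ∑ x : UU, (if Sf x.1 then (-1 : ℤ) else 1) *
    (fac1 x.1 x.2.1 x.2.2.1 x.2.2.2.1 * fac2 x.1 x.2.2.2.1 x.2.2.2.2.1 x.2.2.2.2.2) = 2 := by
  rw [← total_eq]
  unfold total
  rw [sumB_eq, Fintype.sum_prod_type]
  apply Finset.sum_congr rfl
  intro u _
  have hs : cond (Sf u) (-1 : ℤ) 1 = if Sf u then (-1 : ℤ) else 1 := by
    cases Sf u <;> rfl
  rw [hs]
  show ∑ y : Marks, (if Sf u then (-1 : ℤ) else 1) *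
    (fac1 u y.1 y.2.1 y.2.2.1 * fac2 u y.2.2.1 y.2.2.2.1 y.2.2.2.2) = _
  rw [← Finset.mul_sum]
  congr 1
  have h := sum_split (fun a b c => fac1 u a b c) (fun c d e => fac2 u c d e)
  refine h.trans ?_
  rw [sumB_eq]
  apply Finset.sum_congr rfl
  intro c _
  rw [fac1_sum, fac2_sum]
  rfl

theorem sum_eq : ∑ x : UU, (if theCycle.sg x then (-1 : ℤ) else 1) *
    (theEuler.E 0 1 2 x * theEuler.E 2 3 4 x) = 2 := by
  rw [← sum_eq0]
  apply Finset.sum_congr rfl
  intro x _
  have e1 : theEuler.E 0 1 2 x = fac1 x.1 x.2.1 x.2.2.1 x.2.2.2.1 := by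
    unfold fac1
    rw [cnC_eq, cnC_eq, cnC_eq]; rfl
  have e2 : theEuler.E 2 3 4 x = fac2 x.1 x.2.2.2.1 x.2.2.2.2.1 x.2.2.2.2.2 := by
    unfold fac2
    rw [cnC_eq, cnC_eq, cnC_eq]; rfl
  rw [e1, e2]
  rfl

end Pool.Agent.FC640
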