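import Mathlib

/-!
# Lifts of smooth circle diffeomorphisms and the basic expansion maps
-/

namespace Pool.Agent.FC640

open Real

/-- `f` is a lift to the real line of an orientation preserving smooth diffeomorphism of the
circle `ℝ / ℤ`: a smooth bijection with smooth inverse, strictly increasing and commuting with
the translation by `1`. -/
def IsLift (f : Equiv.Perm ℝ) : Prop :=
  ContDiff ℝ (⊤ : ℕ∞) f ∧ ContDiff ℝ (⊤ : ℕ∞) f.symm ∧ StrictMono f ∧
    ∀ x, f (x + 1) = f x + 1

theorem IsLift.symm_add {f : Equiv.Perm ℝ} (h : IsLift f) (x : ℝ) :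
    f.symm (x + 1) = f.symm x + 1 := by
  apply f.injective
  rw [h.2.2.2, Equiv.apply_symm_apply, Equiv.apply_symm_apply]

/-- The group of all lifts of orientation preserving smooth circle diffeomorphisms. -/
def Lifts : Subgroup (Equiv.Perm ℝ) where
  carrier := {f | IsLift f}
  mul_mem' := by
    rintro f g hf hg
    refine ⟨hf.1.comp hg.1, hg.2.1.comp hf.2.1, hf.2.2.1.comp hg.2.2.1, fun x => ?_⟩
    simp [Equiv.Perm.mul_apply, hg.2.2.2, hf.2.2.2]
  one_mem' := ⟨contDiff_id, contDiff_id, strictMono_id, fun x => rfl⟩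
  inv_mem' := by
    rintro f hf
    refine ⟨hf.2.1, hf.1, ?_, fun x => hf.symm_add x⟩
    intro x y hxy
    have := hf.2.2.1.lt_iff_lt (a := f.symm x) (b := f.symm y)
    simpa using this.1 (by simpa using hxy)

/-- The translation by `1`. -/
def tr : Lifts :=
  ⟨Equiv.addRight (1 : ℝ), by
    refine ⟨?_, ?_, ?_, fun x => rfl⟩
    · show ContDiff ℝ _ (fun x : ℝ => x + 1)
      exact contDiff_id.add contDiff_const
    · show ContDiff ℝ _ (fun x : ℝ => x + -1)
      exact contDiff_id.add contDiff_const
    · intro x y h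
      show x + 1 < y + 1
      linarith⟩

@[simp] theorem tr_apply (x : ℝ) : (tr : Equiv.Perm ℝ) x = x + 1 := rfl

theorem tr_zpow_apply (n : ℤ) (x : ℝ) : ((tr ^ n : Lifts) : Equiv.Perm ℝ) x = x + n := by
  have h1 : ∀ (k : ℕ) (x : ℝ), ((tr ^ k : Lifts) : Equiv.Perm ℝ) x = x + k := by
    intro k
    induction k with
    | zero => intro x; simp
    | succ k ih =>
      intro x
      rw [pow_succ]
      simp only [Subgroup.coe_mul, Equiv.Perm.mul_apply, tr_apply]
      rw [ih]; push_cast; ring
  cases n with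
  | ofNat k => simpa using h1 k x
  | negSucc k =>
    rw [zpow_negSucc]
    have h2 := h1 (k + 1) (x + (Int.negSucc k : ℤ))
    have : ((tr ^ (k + 1) : Lifts) : Equiv.Perm ℝ) (x + (Int.negSucc k : ℤ)) = x := by
      rw [h2]; push_cast [Int.negSucc_eq]; ring
    rw [Subgroup.coe_inv]
    conv_lhs => rw [← this]
    simp

/-- A permutation of the circle `ℝ / ℤ` is an orientation preserving smooth diffeomorphism when it
is induced by a lift. -/
def IsDiffS1 (g : Equiv.Perm (AddCircle (1 : ℝ))) : Prop :=
  ∃ f : Lifts, ∀ t : ℝ, g (t : AddCircle (1 : ℝ)) = (((f : Equiv.Perm ℝ) t : ℝ) : AddCircle (1 : ℝ))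

theorem lift_add_int (f : Lifts) (x : ℝ) (n : ℤ) :
    (f : Equiv.Perm ℝ) (x + n) = (f : Equiv.Perm ℝ) x + n := by
  have h : ∀ (k : ℕ) (x : ℝ), (f : Equiv.Perm ℝ) (x + k) = (f : Equiv.Perm ℝ) x + k := by
    intro k
    induction k with
    | zero => intro x; simp
    | succ k ih =>
      intro x
      have := f.2.2.2.2 (x + k)
      push_cast
      rw [← add_assoc, this, ih]; ring
  cases n with
  | ofNat k => simpa using h k x
  | negSucc k =>
    have := h (k + 1) (x + (Int.negSucc k : ℤ))
    have e : x + (Int.negSucc k : ℤ) + ((k + 1 : ℕ) : ℝ) = x := by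
      push_cast [Int.negSucc_eq]; ring
    rw [e] at this
    rw [this]; push_cast [Int.negSucc_eq]; ring

/-- The map of the circle induced by a lift. -/
noncomputable def circMap (f : Lifts) : AddCircle (1 : ℝ) → AddCircle (1 : ℝ) :=
  Quotient.map' (fun t => (f : Equiv.Perm ℝ) t) (by
    intro a b hab
    rw [QuotientAddGroup.leftRel_apply] at hab ⊢
    obtain ⟨n, hn⟩ := AddSubgroup.mem_zmultiples_iff.1 hab
    refine AddSubgroup.mem_zmultiples_iff.2 ⟨n, ?_⟩
    have hb : b = a + n := by
      have : (n : ℝ) = -a + b := by simpa using hn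
      linarith
    rw [hb, lift_add_int]; simp)

theorem circMap_coe (f : Lifts) (t : ℝ) :
    circMap f (t : AddCircle (1 : ℝ)) = (((f : Equiv.Perm ℝ) t : ℝ) : AddCircle (1 : ℝ)) := rfl

/-- The diffeomorphism of the circle induced by a lift. -/
noncomputable def toCirc (f : Lifts) : Equiv.Perm (AddCircle (1 : ℝ)) where
  toFun := circMap f
  invFun := circMap f⁻¹
  left_inv := by
    intro x
    induction x using QuotientAddGroup.induction_on with
    | H t =>
      rw [circMap_coe, circMap_coe]; simp
  right_inv := by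
    intro x
    induction x using QuotientAddGroup.induction_on with
    | H t =>
      rw [circMap_coe, circMap_coe]; simp

theorem toCirc_coe (f : Lifts) (t : ℝ) :
    toCirc f (t : AddCircle (1 : ℝ)) = (((f : Equiv.Perm ℝ) t : ℝ) : AddCircle (1 : ℝ)) := rfl

theorem toCirc_isDiff (f : Lifts) : IsDiffS1 (toCirc f) := ⟨f, fun _ => rfl⟩

theorem toCirc_mul (f g : Lifts) : toCirc (f * g) = toCirc f * toCirc g := by
  ext x
  induction x using QuotientAddGroup.induction_on with
  | H t => rfl

theorem toCirc_tr_zpow (n : ℤ) (f : Lifts) : toCirc (tr ^ n * f) = toCirc f := by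
  ext x
  induction x using QuotientAddGroup.induction_on with
  | H t =>
    have h1 : ((tr ^ n * f : Lifts) : Equiv.Perm ℝ) t = (f : Equiv.Perm ℝ) t + n := by
      rw [Subgroup.coe_mul, Equiv.Perm.mul_apply, tr_zpow_apply]
    show ((((tr ^ n * f : Lifts) : Equiv.Perm ℝ) t : ℝ) : AddCircle (1 : ℝ)) =
      (((f : Equiv.Perm ℝ) t : ℝ) : AddCircle (1 : ℝ))
    rw [h1]
    simp

/-- A smooth function with positive derivative commuting with the translation by `1` is a
lift. -/
noncomputable def mkLift (f : ℝ → ℝ) (hf : ContDiff ℝ (⊤ : ℕ∞) f) (hd : ∀ x, 0 < deriv f x)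
    (hp : ∀ x, f (x + 1) = f x + 1) : Lifts := by
  have hm : StrictMono f := strictMono_of_deriv_pos hd
  have hc : Continuous f := hf.continuous
  have hZ : ∀ (k : ℕ), f k = f 0 + k ∧ f (-(k : ℝ)) = f 0 - k := by
    intro k
    induction k with
    | zero => simp
    | succ k ih =>
      constructor
      · push_cast; rw [hp, ih.1]; ring
      · have := hp (-((k : ℝ) + 1))
        have e : -((k : ℝ) + 1) + 1 = -(k : ℝ) := by ring
        rw [e, ih.2] at this
        push_cast; linarith
  have hs : Function.Surjective f := by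
    intro y
    obtain ⟨a, ha⟩ := exists_nat_ge (y - f 0)
    obtain ⟨b, hb⟩ := exists_nat_ge (f 0 - y)
    have h1 : f (-(b : ℝ)) ≤ y := by rw [(hZ b).2]; linarith
    have h2 : y ≤ f a := by rw [(hZ a).1]; linarith
    exact mem_range_of_exists_le_of_exists_ge hc ⟨_, h1⟩ ⟨_, h2⟩
  let e : ℝ ≃ₜ ℝ := (hm.orderIsoOfSurjective f hs).toHomeomorph
  exact ⟨e.toEquiv, hf, e.contDiff_symm_deriv (f' := deriv f) (fun x => (hd x).ne')
    (fun x => (hf.differentiable (by simp) x).hasDerivAt) hf, hm, hp⟩

@[simp] theorem mkLift_apply (f : ℝ → ℝ) (hf) (hd) (hp) (x : ℝ) :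
    ((mkLift f hf hd hp : Lifts) : Equiv.Perm ℝ) x = f x := rfl

/-! ### The staircase -/

/-- The smooth staircase of step length `n` and step height `1`. -/
noncomputable def stair (n : ℕ) (y : ℝ) : ℝ :=
  ⌊y / n⌋ + smoothTransition (y - n * ⌊y / n⌋)

/-- On the interval `((k-1) n + 1, (k+1) n)` the staircase is `k + θ (y - k n)`. -/
theorem stair_eq {n : ℕ} (hn : 0 < n) (k : ℤ) {y : ℝ} (h1 : ((k : ℝ) - 1) * n + 1 ≤ y)
    (h2 : y ≤ ((k : ℝ) + 1) * n) : stair n y = k + smoothTransition (y - k * n) := by
  have hn' : (0 : ℝ) < n := by exact_mod_cast hn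
  unfold stair
  rcases lt_or_ge y (k * n) with h | h
  · have hf : ⌊y / n⌋ = k - 1 := by
      rw [Int.floor_eq_iff]
      constructor
      · rw [le_div_iff₀ hn']; push_cast; linarith
      · rw [div_lt_iff₀ hn']; push_cast; linarith
    rw [hf, smoothTransition.one_of_one_le (by push_cast; linarith),
      smoothTransition.zero_of_nonpos (by linarith)]
    push_cast; ring
  · rcases eq_or_lt_of_le h2 with h3 | h3
    · have hn1 : (1 : ℝ) ≤ n := by exact_mod_cast hn
      have hf : ⌊y / n⌋ = k + 1 := by
        rw [h3, mul_div_assoc, div_self hn'.ne', mul_one]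
        exact_mod_cast Int.floor_intCast (k + 1)
      rw [hf, h3, smoothTransition.zero_of_nonpos (by push_cast; linarith),
        smoothTransition.one_of_one_le (by linarith)]
      push_cast; ring
    · have hf : ⌊y / n⌋ = k := by
        rw [Int.floor_eq_iff]
        constructor
        · rw [le_div_iff₀ hn']; linarith
        · rw [div_lt_iff₀ hn']; linarith
      rw [hf]; ring_nf

theorem stair_add {n : ℕ} (hn : 0 < n) (y : ℝ) (k : ℤ) :
    stair n (y + k * n) = stair n y + k := by
  have hn' : (n : ℝ) ≠ 0 := by exact_mod_cast hn.ne'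
  unfold stair
  have : (y + k * n) / n = y / n + k := by field_simp
  rw [this, Int.floor_add_intCast]
  push_cast
  have : y + k * n - n * ((⌊y / n⌋ : ℝ) + k) = y - n * ⌊y / n⌋ := by ring
  rw [this]; ring

theorem stair_contDiff {n : ℕ} (hn : 1 < n) : ContDiff ℝ (⊤ : ℕ∞) (stair n) := by
  have hn' : (1 : ℝ) < n := by exact_mod_cast hn
  have hn0 : (0 : ℝ) < n := by linarith
  rw [contDiff_iff_contDiffAt]
  intro y
  set k := ⌊y / n⌋ with hk
  have h1 : (k : ℝ) * n ≤ y := by
    have := Int.floor_le (y / n)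
    rwa [le_div_iff₀ hn0] at this
  have h2 : y < ((k : ℝ) + 1) * n := by
    have := Int.lt_floor_add_one (y / n)
    rwa [div_lt_iff₀ hn0] at this
  have hs : ContDiff ℝ (⊤ : ℕ∞) (fun z : ℝ => (k : ℝ) + smoothTransition (z - k * n)) :=
    contDiff_const.add (smoothTransition.contDiff.comp (contDiff_id.sub contDiff_const))
  refine hs.contDiffAt.congr_of_eventuallyEq ?_
  have : Set.Ioo (((k : ℝ) - 1) * n + 1) (((k : ℝ) + 1) * n) ∈ nhds y := by
    apply Ioo_mem_nhds _ h2
    nlinarith
  filter_upwards [this] with z hz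
  exact stair_eq (by omega) k hz.1.le hz.2.le

theorem stair_mono {n : ℕ} (hn : 1 < n) : Monotone (stair n) := by
  apply monotone_of_deriv_nonneg
  · exact (stair_contDiff hn).differentiable (by simp)
  intro y
  have hn' : (1 : ℝ) < n := by exact_mod_cast hn
  have hn0 : (0 : ℝ) < n := by linarith
  set k := ⌊y / n⌋ with hk
  have h1 : (k : ℝ) * n ≤ y := by
    have := Int.floor_le (y / n)
    rwa [le_div_iff₀ hn0] at this
  have h2 : y < ((k : ℝ) + 1) * n := by
    have := Int.lt_floor_add_one (y / n)
    rwa [div_lt_iff₀ hn0] at this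
  have : stair n =ᶠ[nhds y] (fun z : ℝ => (k : ℝ) + smoothTransition (z - k * n)) := by
    have : Set.Ioo (((k : ℝ) - 1) * n + 1) (((k : ℝ) + 1) * n) ∈ nhds y := by
      apply Ioo_mem_nhds _ h2
      nlinarith
    filter_upwards [this] with z hz
    exact stair_eq (by omega) k hz.1.le hz.2.le
  rw [this.deriv_eq]
  apply Monotone.deriv_nonneg
  intro a b hab
  have := smoothTransition.monotone (show a - k * n ≤ b - k * n by linarith)
  show (k : ℝ) + smoothTransition (a - k * n) ≤ k + smoothTransition (b - k * n)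
  linarith

/-- value at integers of the fundamental block -/
theorem stair_int {n : ℕ} (hn : 0 < n) {a : ℤ} (h1 : -(n : ℤ) < a) (h2 : a < n) :
    stair n a = if 0 < a then 1 else 0 := by
  split_ifs with h
  · have h3 : (1 : ℝ) ≤ a := by exact_mod_cast h
    have h4 : (a : ℝ) < n := by exact_mod_cast h2
    rw [stair_eq hn 0 (by push_cast; nlinarith) (by push_cast; linarith)]
    rw [smoothTransition.one_of_one_le (by simpa using h3)]; simp
  · have h3 : (a : ℝ) ≤ 0 := by exact_mod_cast (by omega : a ≤ 0)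
    have h4 : (1 : ℝ) - n ≤ a := by exact_mod_cast (by omega : (1 : ℤ) - n ≤ a)
    rw [stair_eq hn 0 (by push_cast; linarith) (by push_cast; nlinarith [(Nat.cast_pos (α := ℝ)).2 hn])]
    rw [smoothTransition.zero_of_nonpos (by simpa using h3)]; simp

/-- One-step commutation: inserting a leaf after an expansion. -/
theorem stair_step {n : ℕ} (hn : 1 < n) {a b : ℤ} (ha0 : 0 ≤ a) (ha : a < n) (hb0 : 0 ≤ b)
    (hb : b < n) (hab : a ≠ b) (x : ℝ) :
    stair (n + 1) (x + stair n (x - a) - (b + if a < b then 1 else 0 : ℤ)) =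
      stair n (x - b) := by
  have hn' : (1 : ℝ) < n := by exact_mod_cast hn
  have hn0 : (0 : ℝ) < n := by linarith
  set q := ⌊(x - a) / n⌋ with hq
  have h1 : (q : ℝ) * n ≤ x - a := by
    have := Int.floor_le ((x - a) / n)
    rwa [le_div_iff₀ hn0] at this
  have h2 : x - a < ((q : ℝ) + 1) * n := by
    have := Int.lt_floor_add_one ((x - a) / n)
    rwa [div_lt_iff₀ hn0] at this
  obtain ⟨r, hr⟩ : ∃ r : ℝ, r = x - a - q * n := ⟨_, rfl⟩
  have hr0 : 0 ≤ r := by rw [hr]; linarith
  have hrn : r < n := by rw [hr]; linarith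
  have hst : stair n (x - a) = q + smoothTransition r := by
    rw [stair_eq (by omega) q (by linarith) h2.le, hr]
  have hth0 := smoothTransition.nonneg r
  have hth1 := smoothTransition.le_one r
  rw [hst]
  have e1 : x - b = (r + a - b) + q * n := by rw [hr]; ring
  have e2 : x + (q + smoothTransition r) - ((b + if a < b then 1 else 0 : ℤ) : ℝ)
      = (r + smoothTransition r + a - ((b + if a < b then 1 else 0 : ℤ) : ℝ)) + q * ((n + 1 : ℕ) : ℝ) := by
    push_cast; rw [hr]; ring
  rw [e1, e2, stair_add (by omega), stair_add (by omega)]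
  congr 1
  have hc : ((n + 1 : ℕ) : ℝ) = n + 1 := by push_cast; ring
  rcases lt_or_gt_of_ne hab with hlt | hgt
  · -- a < b
    rw [if_pos hlt]
    have hd1 : (1 : ℝ) ≤ b - a := by exact_mod_cast (by omega : (1 : ℤ) ≤ b - a)
    have hd2 : (b : ℝ) - a ≤ n - 1 := by exact_mod_cast (by omega : b - a ≤ (n : ℤ) - 1)
    push_cast
    rw [stair_eq (n := n + 1) (by omega) 0 (by rw [hc]; push_cast; linarith)
      (by rw [hc]; push_cast; linarith),
      stair_eq (n := n) (by omega) 0 (by push_cast; linarith) (by push_cast; linarith)]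
    congr 1
    rcases le_or_gt 1 r with h | h
    · rw [smoothTransition.one_of_one_le h]; congr 1; push_cast; ring
    · rw [smoothTransition.zero_of_nonpos (x := r + a - b - _) (by push_cast; linarith),
        smoothTransition.zero_of_nonpos]
      push_cast; linarith
  · -- b < a
    rw [if_neg (by omega)]
    have hd1 : (1 : ℝ) ≤ a - b := by exact_mod_cast (by omega : (1 : ℤ) ≤ a - b)
    have hd2 : (a : ℝ) - b ≤ n - 1 := by exact_mod_cast (by omega : a - b ≤ (n : ℤ) - 1)
    push_cast
    rcases le_or_gt 1 r with h | h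
    · rw [smoothTransition.one_of_one_le h]
      rw [stair_eq (n := n + 1) (by omega) 1 (by rw [hc]; push_cast; linarith)
        (by rw [hc]; push_cast; linarith),
        stair_eq (n := n) (by omega) 1 (by push_cast; linarith) (by push_cast; linarith)]
      congr 2
      rw [hc]; push_cast; ring
    · rw [stair_eq (n := n + 1) (by omega) 1 (by rw [hc]; push_cast; linarith)
        (by rw [hc]; push_cast; linarith),
        stair_eq (n := n) (by omega) 1 (by push_cast; linarith) (by push_cast; linarith)]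
      rw [smoothTransition.zero_of_nonpos, smoothTransition.zero_of_nonpos]
      · push_cast; linarith
      · rw [hc]; push_cast; linarith

end Pool.Agent.FC640
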