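import Pool.Agent.FC640.Resolve
import Pool.Agent.FC640.Circle

/-!
# The square of the Euler class on the resolution
-/

namespace Pool.Agent.FC640

open Finset

/-- Composition data for a labelled cycle with labels in the group of lifts. -/
structure EulerData (S : LabCycle Lifts) where
  /-- the integers -/
  E : Fin 5 → Fin 5 → Fin 5 → S.U → ℤ
  comp : ∀ p q r u, p ≤ q → q ≤ r →
    S.lab q r u * S.lab p q u = tr ^ (E p q r u) * S.lab p r u
  deg1 : ∀ p q u, p ≤ q → E p p q u = 0
  deg2 : ∀ p q u, p ≤ q → E p q q u = 0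

theorem tr_zpow_inj {m n : ℤ} {g : Lifts} (h : tr ^ m * g = tr ^ n * g) : m = n := by
  have h1 := mul_right_cancel h
  have h2 := congrArg (fun f : Lifts => (f : Equiv.Perm ℝ) 0) h1
  simp only [tr_zpow_apply, zero_add] at h2
  exact_mod_cast h2

variable {S : LabCycle Lifts} (Eu : EulerData S) {v₀ : State S}

theorem EulerData.congr {p q r : Fin 5} (hpq : p ≤ q) (hqr : q ≤ r) {u u' : S.U}
    (h1 : S.lab p q u = S.lab p q u') (h2 : S.lab q r u = S.lab q r u')
    (h3 : S.lab p r u = S.lab p r u') : Eu.E p q r u = Eu.E p q r u' := by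
  have e1 := Eu.comp p q r u hpq hqr
  rw [h1, h2, Eu.comp p q r u' hpq hqr, h3] at e1
  exact (tr_zpow_inj e1).symm

/-- The integer 2-cochain on the resolution. -/
noncomputable def resE (x y z : Resolution v₀) : ℤ :=
  Eu.E x.col y.col z.col (x.nonempty.choose).1.u

theorem col_mono {x y : Resolution v₀} (h : x ≤ y) : x.col ≤ y.col := kap_mono y.chain h.1

theorem resE_eq {x y z : Resolution v₀} (hxy : x ≤ y) (hyz : y ≤ z) {v : (mirrorOf v₀).V}
    (hv : v ∈ x.s) : resE Eu x y z = Eu.E x.col y.col z.col v.1.u := by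
  unfold resE
  have h1 : x.nonempty.choose ∈ (mirrorOf v₀).orbit x.τ v := by
    rw [← Cell.s_eq hv]; exact x.nonempty.choose_spec
  have hx : ∀ A ∈ x.τ, x.col ∉ A.1 := fun A hA => kap_notMem x.chain hA
  have hy : ∀ A ∈ x.τ, y.col ∉ A.1 := fun A hA => kap_notMem y.chain (hxy.1 hA)
  have hz : ∀ A ∈ x.τ, z.col ∉ A.1 := fun A hA => kap_notMem z.chain (hyz.1 (hxy.1 hA))
  exact Eu.congr (col_mono hxy) (col_mono hyz) (lab_orbit h1 hx hy) (lab_orbit h1 hy hz)
    (lab_orbit h1 hx hz)

/-- The labels form a flat bundle of lifts up to translations, with Euler cochain `resE`. -/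
theorem resLab_comp {x y z : Resolution v₀} (hxy : x ≤ y) (hyz : y ≤ z) :
    resLab y z * resLab x y = tr ^ (resE Eu x y z) * resLab x z := by
  obtain ⟨v, hv⟩ := x.nonempty
  have hvy : v ∈ y.s := hxy.2 hv
  rw [resLab_eq hyz hvy, resLab_eq hxy hv, resLab_eq (hxy.trans hyz) hv, resE_eq Eu hxy hyz hv]
  exact Eu.comp _ _ _ _ (col_mono hxy) (col_mono hyz)

theorem kap_tau_spec {σ : Equiv.Perm (Fin 5)} {π : Equiv.Perm (Fin 4)} {j : Fin 5}
    (h : kap (tau σ π j) = j) (l : Fin 4) (hl : l.castSucc < j) :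
    (π l).castSucc < σ.symm j := by
  have h1 : subOf σ (π l) ∈ tau σ π j := by rw [mem_tau]; exact ⟨l, hl, rfl⟩
  have h2 := kap_notMem (tau_chain σ π j) h1
  rw [h, mem_subOf, not_le] at h2
  exact h2

theorem kap_tau_id {σ : Equiv.Perm (Fin 5)} {π : Equiv.Perm (Fin 4)}
    (h : ∀ j, kap (tau σ π j) = j) : σ = 1 ∧ π = 1 := by
  have hp : ∀ a b : Fin 4, a ≠ b → (π a).val ≠ (π b).val := by
    intro a b hab e
    exact hab (π.injective (Fin.ext e))
  have hs : ∀ a b : Fin 5, a ≠ b → (σ.symm a).val ≠ (σ.symm b).val := by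
    intro a b hab e
    exact hab (σ.symm.injective (Fin.ext e))
  have p0 := (π 0).2
  have p1 := (π 1).2
  have p2 := (π 2).2
  have p3 := (π 3).2
  have s0 := (σ.symm 0).2
  have s1 := (σ.symm 1).2
  have s2 := (σ.symm 2).2
  have s3 := (σ.symm 3).2
  have s4 := (σ.symm 4).2
  have k : ∀ (j : Fin 5) (l : Fin 4), l.castSucc < j → (π l).val < (σ.symm j).val := by
    intro j l hl
    exact kap_tau_spec (h j) l hl
  have a40 := k 4 0 (by decide)
  have a41 := k 4 1 (by decide)
  have a42 := k 4 2 (by decide)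
  have a43 := k 4 3 (by decide)
  have a30 := k 3 0 (by decide)
  have a31 := k 3 1 (by decide)
  have a32 := k 3 2 (by decide)
  have a20 := k 2 0 (by decide)
  have a21 := k 2 1 (by decide)
  have a10 := k 1 0 (by decide)
  have d01 := hp 0 1 (by decide)
  have d02 := hp 0 2 (by decide)
  have d03 := hp 0 3 (by decide)
  have d12 := hp 1 2 (by decide)
  have d13 := hp 1 3 (by decide)
  have d23 := hp 2 3 (by decide)
  have e4 : (σ.symm 4).val = 4 := by omega
  have b34 := hs 3 4 (by decide)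
  have e3 : (σ.symm 3).val = 3 := by omega
  have f3 : (π 3).val = 3 := by omega
  have b23 := hs 2 3 (by decide)
  have b24 := hs 2 4 (by decide)
  have e2 : (σ.symm 2).val = 2 := by omega
  have f2 : (π 2).val = 2 := by omega
  have b12 := hs 1 2 (by decide)
  have b13 := hs 1 3 (by decide)
  have b14 := hs 1 4 (by decide)
  have e1 : (σ.symm 1).val = 1 := by omega
  have f0 : (π 0).val = 0 := by omega
  have f1 : (π 1).val = 1 := by omega
  have b01 := hs 0 1 (by decide)
  have b02 := hs 0 2 (by decide)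
  have b03 := hs 0 3 (by decide)
  have b04 := hs 0 4 (by decide)
  have e0 : (σ.symm 0).val = 0 := by omega
  constructor
  · have : σ.symm = 1 := by
      apply Equiv.ext
      intro i
      apply Fin.ext
      fin_cases i
      · exact e0
      · exact e1
      · exact e2
      · exact e3
      · exact e4
    calc σ = σ.symm.symm := rfl
      _ = (1 : Equiv.Perm (Fin 5)).symm := by rw [this]
      _ = 1 := rfl
  · apply Equiv.ext
    intro i
    apply Fin.ext
    fin_cases i
    · exact f0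
    · exact f1
    · exact f2
    · exact f3

theorem fin5_mono_id (f : Fin 5 → Fin 5) (h01 : f 0 < f 1) (h12 : f 1 < f 2) (h23 : f 2 < f 3)
    (h34 : f 3 < f 4) (j : Fin 5) : f j = j := by
  have h4 := (f 4).2
  rw [Fin.lt_def] at h01 h12 h23 h34
  have a0 : (f 0).val = 0 := by omega
  have a1 : (f 1).val = 1 := by omega
  have a2 : (f 2).val = 2 := by omega
  have a3 : (f 3).val = 3 := by omega
  have a4 : (f 4).val = 4 := by omega
  apply Fin.ext
  fin_cases j
  · exact a0
  · exact a1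
  · exact a2
  · exact a3
  · exact a4

theorem kap_one (j : Fin 5) : kap (tau 1 1 j) = j := by
  revert j; decide

/-- Cup square of the Euler cochain on a facet. -/
theorem eval_facet (v : (mirrorOf v₀).V) (σ : Equiv.Perm (Fin 5)) (π : Equiv.Perm (Fin 4))
    (h : ¬ (σ = 1 ∧ π = 1)) :
    resE Eu (facet v σ π 0) (facet v σ π 1) (facet v σ π 2) *
      resE Eu (facet v σ π 2) (facet v σ π 3) (facet v σ π 4) = 0 := by
  have hm := (facet_strictMono v σ π).monotone
  have m01 := hm (show (0 : Fin 5) ≤ 1 by decide)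
  have m12 := hm (show (1 : Fin 5) ≤ 2 by decide)
  have m23 := hm (show (2 : Fin 5) ≤ 3 by decide)
  have m34 := hm (show (3 : Fin 5) ≤ 4 by decide)
  rw [resE_eq Eu m01 m12 (mem_facet v σ π 0), resE_eq Eu m23 m34 (mem_facet v σ π 2)]
  have c01 := col_mono m01
  have c12 := col_mono m12
  have c23 := col_mono m23
  have c34 := col_mono m34
  by_cases e01 : (facet v σ π 0 : Resolution v₀).col = (facet v σ π 1 : Resolution v₀).col
  · rw [e01, Eu.deg1 _ _ _ c12, zero_mul]
  by_cases e12 : (facet v σ π 1 : Resolution v₀).col = (facet v σ π 2 : Resolution v₀).col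
  · rw [e12, Eu.deg2 _ _ _ (c01.trans e12.le), zero_mul]
  by_cases e23 : (facet v σ π 2 : Resolution v₀).col = (facet v σ π 3 : Resolution v₀).col
  · rw [e23, Eu.deg1 _ _ _ c34, mul_zero]
  by_cases e34 : (facet v σ π 3 : Resolution v₀).col = (facet v σ π 4 : Resolution v₀).col
  · rw [e34, Eu.deg2 _ _ _ (c23.trans e34.le), mul_zero]
  exfalso
  apply h
  apply kap_tau_id
  have hcol : ∀ j, (facet v σ π j : Resolution v₀).col = kap (tau σ π j) := fun j => rfl
  intro j
  rw [← hcol j]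
  exact fin5_mono_id (fun j => (facet v σ π j : Resolution v₀).col) (lt_of_le_of_ne c01 e01)
    (lt_of_le_of_ne c12 e12) (lt_of_le_of_ne c23 e23) (lt_of_le_of_ne c34 e34) j

theorem eval_one (v : (mirrorOf v₀).V) :
    resE Eu (facet v 1 1 0) (facet v 1 1 1) (facet v 1 1 2) *
      resE Eu (facet v 1 1 2) (facet v 1 1 3) (facet v 1 1 4) =
    Eu.E 0 1 2 v.1.u * Eu.E 2 3 4 v.1.u := by
  have hm := (facet_strictMono v 1 1).monotone
  have m01 := hm (show (0 : Fin 5) ≤ 1 by decide)
  have m12 := hm (show (1 : Fin 5) ≤ 2 by decide)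
  have m23 := hm (show (2 : Fin 5) ≤ 3 by decide)
  have m34 := hm (show (3 : Fin 5) ≤ 4 by decide)
  rw [resE_eq Eu m01 m12 (mem_facet v 1 1 0), resE_eq Eu m23 m34 (mem_facet v 1 1 2)]
  have hc : ∀ j, (facet v 1 1 j : Resolution v₀).col = j := fun j => kap_one j
  rw [hc, hc, hc, hc, hc]

theorem sgnV_eq (v : (mirrorOf v₀).V) : sgnV v = if S.sg v.1.u then -1 else 1 := by
  rw [v.1.par]
  unfold sgnV parity
  show (if v.1.β 0 = true then (-1 : ℤ) else 1) * (if v.1.β 1 = true then -1 else 1) *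
    (if v.1.β 2 = true then -1 else 1) * (if v.1.β 3 = true then -1 else 1) = _
  generalize v.1.β 0 = b0
  generalize v.1.β 1 = b1
  generalize v.1.β 2 = b2
  generalize v.1.β 3 = b3
  revert b0 b1 b2 b3
  decide

/-- singletons as proper non-empty subsets -/
def sing (i : Fin 5) : Sub := ⟨{i}, Finset.singleton_nonempty i, by
  intro h
  have := congrArg Finset.card h
  simp at this⟩

theorem fl_sing_u (i : Fin 5) (v : State S) : (v.fl (sing i)).u = S.phi i v.u := by
  rw [State.fl_u, (v.good (sing i)).single i rfl]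

/-- All simplices have the same number of states in the resolution. -/
theorem sum_states [Fintype S.U] [Fintype (mirrorOf v₀).V] (F : S.U → ℤ)
    (hconn : ∀ u, Relation.ReflTransGen (fun a b => ∃ i, b = S.phi i a) v₀.u u) :
    ∃ N : ℤ, 0 < N ∧ ∑ v : (mirrorOf v₀).V, F v.1.u = N * ∑ u : S.U, F u := by
  classical
  let cnt : S.U → ℕ := fun u => (Finset.univ.filter (fun v : (mirrorOf v₀).V => v.1.u = u)).card
  have hstep : ∀ i u, cnt (S.phi i u) = cnt u := by
    intro i u
    refine Finset.card_bij (fun v _ => (mirrorOf v₀).fl (sing i) v) ?_ ?_ ?_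
    · intro v hv
      rw [Finset.mem_filter] at hv ⊢
      refine ⟨Finset.mem_univ _, ?_⟩
      show (v.1.fl (sing i)).u = u
      rw [fl_sing_u, hv.2, S.phi_phi]
    · intro v _ w _ h
      have := congrArg ((mirrorOf v₀).fl (sing i)) h
      rwa [(mirrorOf v₀).fl_fl, (mirrorOf v₀).fl_fl] at this
    · intro w hw
      rw [Finset.mem_filter] at hw
      refine ⟨(mirrorOf v₀).fl (sing i) w, ?_, (mirrorOf v₀).fl_fl _ _⟩
      rw [Finset.mem_filter]
      refine ⟨Finset.mem_univ _, ?_⟩
      show (w.1.fl (sing i)).u = S.phi i u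
      rw [fl_sing_u, hw.2]
  have hall : ∀ u, cnt u = cnt v₀.u := by
    intro u
    induction hconn u with
    | refl => rfl
    | tail _ h2 ih =>
      obtain ⟨i, rfl⟩ := h2
      rw [hstep, ih]
  have hpos : 0 < cnt v₀.u := by
    apply Finset.card_pos.2
    exact ⟨⟨v₀, Relation.ReflTransGen.refl⟩, Finset.mem_filter.2 ⟨Finset.mem_univ _, rfl⟩⟩
  refine ⟨cnt v₀.u, by exact_mod_cast hpos, ?_⟩
  rw [← Finset.sum_fiberwise (s := Finset.univ) (g := fun v : (mirrorOf v₀).V => v.1.u)
    (f := fun v => F v.1.u), Finset.mul_sum]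
  apply Finset.sum_congr rfl
  intro u _
  rw [← hall u]
  have : ∀ v ∈ Finset.univ.filter (fun v : (mirrorOf v₀).V => v.1.u = u), F v.1.u = F u := by
    intro v hv
    rw [(Finset.mem_filter.1 hv).2]
  rw [Finset.sum_congr rfl this, Finset.sum_const]
  simp [cnt]

/-- The cup square of the Euler cochain is not a coboundary. -/
theorem not_coboundary [Fintype S.U]
    (hconn : ∀ u, Relation.ReflTransGen (fun a b => ∃ i, b = S.phi i a) v₀.u u)
    (hsum : ∑ u : S.U, (if S.sg u then (-1 : ℤ) else 1) * (Eu.E 0 1 2 u * Eu.E 2 3 4 u) ≠ 0) :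
    ¬ ∃ c : (Fin 4 → Resolution v₀) → ℤ, ∀ x : Fin 5 → Resolution v₀, StrictMono x →
      delta c x = resE Eu (x 0) (x 1) (x 2) * resE Eu (x 2) (x 3) (x 4) := by
  classical
  rintro ⟨c, hc⟩
  let _ : Fintype (mirrorOf v₀).V := @Fintype.ofFinite _ (mirrorOf v₀).fin
  have h1 := fund_cycle (M := mirrorOf v₀) c
  have h2 : ∀ x : (mirrorOf v₀).V × Equiv.Perm (Fin 5) × Equiv.Perm (Fin 4),
      sgnF x.1 x.2.1 x.2.2 * delta c (facet x.1 x.2.1 x.2.2) =
      if x.2 = (1, 1) then (if S.sg x.1.1.u then (-1 : ℤ) else 1) *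
        (Eu.E 0 1 2 x.1.1.u * Eu.E 2 3 4 x.1.1.u) else 0 := by
    rintro ⟨v, σ, π⟩
    show sgnF v σ π * delta c (facet v σ π) = if (σ, π) = (1, 1) then
      (if S.sg v.1.u then (-1 : ℤ) else 1) * (Eu.E 0 1 2 v.1.u * Eu.E 2 3 4 v.1.u) else 0
    rw [hc _ (facet_strictMono v σ π)]
    by_cases h : σ = 1 ∧ π = 1
    · obtain ⟨rfl, rfl⟩ := h
      rw [if_pos rfl, eval_one, sgnF, sgnV_eq]
      simp
    · rw [eval_facet Eu v σ π h, mul_zero, if_neg]
      intro e
      rw [Prod.mk.injEq] at e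
      exact h e
  rw [Finset.sum_congr rfl (fun x _ => h2 x), Fintype.sum_prod_type] at h1
  simp only [Finset.sum_ite_eq', Finset.mem_univ, if_true] at h1
  obtain ⟨N, hN, hS⟩ := sum_states (v₀ := v₀)
    (fun u => (if S.sg u then (-1 : ℤ) else 1) * (Eu.E 0 1 2 u * Eu.E 2 3 4 u)) hconn
  rw [hS] at h1
  rcases mul_eq_zero.1 h1 with h | h
  · omega
  · exact hsum h

end Pool.Agent.FC640
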