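import Pool.Agent.FC640.Statement

/-!
# The closed manifold and the flat bundle
-/

namespace Pool.Agent.FC640

open Finset

/-- **The manifold** `M`, as the poset of cells of a cube complex: the resolution of the explicit
labelled cycle `theCycle` with base point the standard state over the simplex number `0` with all
marks `0`. -/
abbrev M : Type := Resolution (S := theCycle) (stdState (S := theCycle) ((0, 0) : UU))

/-- The lift of the holonomy along the edge `x ≤ y`: the expansion label between the colours of `x`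
and `y` of the simplex of any vertex of the cell `x`. -/
noncomputable def liftM (x y : M) : Lifts := resLab x y

/-- **The flat circle bundle** over `M`. -/
noncomputable def bundle : FlatCircleBundle M where
  hol := fun x y => toCirc (liftM x y)
  smooth := fun x y _ => toCirc_isDiff _
  flat := by
    intro x y z hxy hyz
    rw [← toCirc_mul]
    show toCirc (resLab y z * resLab x y) = toCirc (resLab x z)
    rw [resLab_comp theEuler hxy hyz, toCirc_tr_zpow]

/-- The holonomy is given by the label of any vertex of the cell. -/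
theorem bundle_hol {x y : M} (h : x ≤ y) {v : (mirrorOf (S := theCycle)
    (stdState (S := theCycle) ((0, 0) : UU))).V} (hv : v ∈ x.s) :
    bundle.hol x y = toCirc (labU x.col y.col v.1.u) := by
  show toCirc (resLab x y) = _
  rw [resLab_eq h hv]
  rfl

theorem euler_exists : IsEulerCochain bundle (resE theEuler) :=
  ⟨liftM, fun _ _ _ _ => rfl, fun _ _ _ hxy hyz => resLab_comp theEuler hxy.le hyz.le⟩

theorem euler_square : EulerSquareNeZero bundle := by
  refine ⟨⟨_, euler_exists⟩, ?_⟩
  intro e he hc
  have h1 := euler_square_indep bundle (euler_exists) he hc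
  let _ : Fintype theCycle.U := inferInstanceAs (Fintype UU)
  refine not_coboundary (S := theCycle) theEuler
    (v₀ := stdState (S := theCycle) ((0, 0) : UU)) (fun u => cycle_connected _ u) ?_ h1
  have h2 := sum_eq
  intro h3
  have h4 : (2 : ℤ) = 0 := by
    rw [← h2]
    exact h3
  omega

theorem cell_oriented (N : Mirror) : IsOriented4 (Cell N) := by
  classical
  let _ : Fintype N.V := @Fintype.ofFinite _ N.fin
  let _ : Fintype {x : Fin 5 → Cell N // StrictMono x} := Fintype.ofFinite _
  let F : N.V × Equiv.Perm (Fin 5) × Equiv.Perm (Fin 4) → {x : Fin 5 → Cell N // StrictMono x} :=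
    fun y => ⟨facet y.1 y.2.1 y.2.2, facet_strictMono _ _ _⟩
  have hF : Function.Bijective F := by
    constructor
    · rintro ⟨v, σ, π⟩ ⟨v', σ', π'⟩ h
      have h2 : facet v σ π = facet v' σ' π' := congrArg Subtype.val h
      obtain ⟨rfl, rfl, rfl⟩ := facet_inj h2
      rfl
    · rintro ⟨x, hx⟩
      obtain ⟨v, σ, π, h⟩ := facet_surj x hx
      exact ⟨(v, σ, π), Subtype.ext h⟩
  let G := Equiv.ofBijective F hF
  let o : (Fin 5 → Cell N) → ℤ := fun x => if h : StrictMono x then
    sgnF (G.symm ⟨x, h⟩).1 (G.symm ⟨x, h⟩).2.1 (G.symm ⟨x, h⟩).2.2 else 0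
  have ho : ∀ x (h : StrictMono x), o x =
      sgnF (G.symm ⟨x, h⟩).1 (G.symm ⟨x, h⟩).2.1 (G.symm ⟨x, h⟩).2.2 := fun x h => dif_pos h
  refine ⟨o, ?_, ?_⟩
  · intro x hx
    rw [ho x hx]
    unfold sgnF
    rcases sgnV_sq (G.symm ⟨x, hx⟩).1 with h1 | h1 <;>
    rcases Int.units_eq_one_or (Equiv.Perm.sign (G.symm ⟨x, hx⟩).2.1) with h2 | h2 <;>
    rcases Int.units_eq_one_or (Equiv.Perm.sign (G.symm ⟨x, hx⟩).2.2) with h3 | h3 <;>
    rw [h1, h2, h3] <;> simp
  · intro c
    rw [finsum_eq_sum_of_fintype]
    refine Eq.trans ?_ (fund_cycle c)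
    rw [← Equiv.sum_comp G]
    apply Finset.sum_congr rfl
    intro y _
    have h1 : ((G y).1 : Fin 5 → Cell N) = facet y.1 y.2.1 y.2.2 := rfl
    have h2 : G.symm ⟨(G y).1, (G y).2⟩ = y := G.symm_apply_apply y
    rw [ho _ (G y).2, h2, h1]

end Pool.Agent.FC640
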