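import Pool.Agent.FC640.Mirror

/-!
# The fundamental cycle of a mirrored cube complex
-/

namespace Pool.Agent.FC640

open Finset

/-- the subset `{σ 0, …, σ k}` -/
def subOf (σ : Equiv.Perm (Fin 5)) (k : Fin 4) : Sub :=
  ⟨(Finset.univ.filter (fun i : Fin 5 => i ≤ k.castSucc)).map σ.toEmbedding, by
    refine ⟨⟨σ 0, ?_⟩, ?_⟩
    · simp
    · intro h
      have : σ (Fin.last 4) ∈ (Finset.univ.filter (fun i : Fin 5 => i ≤ k.castSucc)).map
          σ.toEmbedding := by rw [h]; exact Finset.mem_univ _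
      simp only [mem_map_equiv, Equiv.symm_apply_apply, mem_filter, mem_univ, true_and] at this
      exact absurd (Fin.castSucc_lt_last k) (not_lt_of_ge this)⟩

theorem mem_subOf {σ : Equiv.Perm (Fin 5)} {k : Fin 4} {a : Fin 5} :
    a ∈ (subOf σ k).1 ↔ σ.symm a ≤ k.castSucc := by
  simp [subOf]

theorem card_subOf (σ : Equiv.Perm (Fin 5)) (k : Fin 4) : (subOf σ k).1.card = k.val + 1 := by
  simp only [subOf, card_map]
  revert k; decide

theorem sz_subOf (σ : Equiv.Perm (Fin 5)) (k : Fin 4) : sz (subOf σ k) = k := by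
  apply Fin.ext
  show (subOf σ k).1.card - 1 = k.val
  rw [card_subOf]; omega

theorem subOf_inj {σ : Equiv.Perm (Fin 5)} {k l : Fin 4} (h : subOf σ k = subOf σ l) : k = l := by
  rw [← sz_subOf σ k, h, sz_subOf]

theorem subOf_le {σ : Equiv.Perm (Fin 5)} {k l : Fin 4} (h : k ≤ l) :
    subOf σ k ≤ subOf σ l := by
  intro a ha
  rw [mem_subOf] at ha ⊢
  exact ha.trans (by simpa using h)

/-- the chain of the sets inserted before time `j` -/
def tau (σ : Equiv.Perm (Fin 5)) (π : Equiv.Perm (Fin 4)) (j : Fin 5) : Finset Sub :=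
  (Finset.univ.filter (fun l : Fin 4 => l.castSucc < j)).image (fun l => subOf σ (π l))

theorem mem_tau {σ : Equiv.Perm (Fin 5)} {π : Equiv.Perm (Fin 4)} {j : Fin 5} {A : Sub} :
    A ∈ tau σ π j ↔ ∃ l : Fin 4, l.castSucc < j ∧ subOf σ (π l) = A := by
  simp [tau]

theorem tau_chain (σ : Equiv.Perm (Fin 5)) (π : Equiv.Perm (Fin 4)) (j : Fin 5) :
    IsChain (· ≤ ·) ((tau σ π j : Finset Sub) : Set Sub) := by
  intro A hA B hB _
  rw [Finset.mem_coe, mem_tau] at hA hB
  obtain ⟨l, _, rfl⟩ := hA
  obtain ⟨m, _, rfl⟩ := hB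
  rcases le_total (π l) (π m) with h | h
  · left; exact subOf_le h
  · right; exact subOf_le h

theorem tau_mono (σ : Equiv.Perm (Fin 5)) (π : Equiv.Perm (Fin 4)) {i j : Fin 5} (h : i ≤ j) :
    tau σ π i ⊆ tau σ π j := by
  intro A hA
  rw [mem_tau] at hA ⊢
  obtain ⟨l, h1, h2⟩ := hA
  exact ⟨l, h1.trans_le h, h2⟩

theorem card_tau (σ : Equiv.Perm (Fin 5)) (π : Equiv.Perm (Fin 4)) (j : Fin 5) :
    (tau σ π j).card = j.val := by
  unfold tau
  rw [Finset.card_image_of_injective _ (fun a b h => π.injective (subOf_inj h))]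
  revert j; decide

variable {M : Mirror}

/-- The top dimensional simplices of the barycentric subdivision. -/
def facet (v : M.V) (σ : Equiv.Perm (Fin 5)) (π : Equiv.Perm (Fin 4)) (j : Fin 5) : Cell M :=
  ⟨tau σ π j, M.orbit (tau σ π j) v, tau_chain σ π j, v, rfl⟩

theorem facet_tau (v : M.V) (σ : Equiv.Perm (Fin 5)) (π : Equiv.Perm (Fin 4)) (j : Fin 5) :
    (facet v σ π j).τ = tau σ π j := rfl

theorem mem_facet (v : M.V) (σ : Equiv.Perm (Fin 5)) (π : Equiv.Perm (Fin 4)) (j : Fin 5) :
    v ∈ (facet v σ π j).s := Mirror.mem_orbit_self _ _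

theorem facet_strictMono (v : M.V) (σ : Equiv.Perm (Fin 5)) (π : Equiv.Perm (Fin 4)) :
    StrictMono (facet v σ π) := by
  intro i j hij
  refine lt_of_le_of_ne ((Cell.le_iff (mem_facet v σ π i) (mem_facet v σ π j)).2
    (tau_mono σ π hij.le)) ?_
  intro h
  have := congrArg (fun c : Cell M => c.τ.card) h
  simp only [facet_tau, card_tau] at this
  exact hij.ne (Fin.ext this)

theorem facet_eq_of {v w : M.V} {σ σ' : Equiv.Perm (Fin 5)} {π π' : Equiv.Perm (Fin 4)}
    {i : Fin 5} (h1 : tau σ π i = tau σ' π' i) (h2 : w ∈ M.orbit (tau σ' π' i) v) :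
    facet w σ π i = facet v σ' π' i := by
  apply Cell.ext
  · exact h1
  · show M.orbit (tau σ π i) w = M.orbit (tau σ' π' i) v
    rw [h1]; exact Mirror.orbit_eq h2

/-- deleting the vertex `0` -/
theorem facet_zero (v : M.V) (σ : Equiv.Perm (Fin 5)) (π : Equiv.Perm (Fin 4)) {i : Fin 5}
    (hi : i ≠ 0) : facet (M.fl (subOf σ (π 0)) v) σ π i = facet v σ π i := by
  apply facet_eq_of rfl
  apply Mirror.fl_mem_orbit _ (Mirror.mem_orbit_self _ _)
  rw [mem_tau]
  exact ⟨0, Fin.pos_of_ne_zero hi, rfl⟩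

theorem tau_mid (σ : Equiv.Perm (Fin 5)) (π : Equiv.Perm (Fin 4)) (j : Fin 3) {i : Fin 5}
    (hi : i ≠ j.succ.castSucc) :
    tau σ (π * Equiv.swap j.castSucc j.succ) i = tau σ π i := by
  have key : ∀ l : Fin 4, l.castSucc < i →
      (Equiv.swap j.castSucc j.succ l : Fin 4).castSucc < i := by
    revert i j; decide
  ext A
  rw [mem_tau, mem_tau]
  constructor
  · rintro ⟨l, h1, h2⟩
    exact ⟨_, key l h1, h2⟩
  · rintro ⟨l, h1, h2⟩
    refine ⟨_, key l h1, ?_⟩
    rw [Equiv.Perm.mul_apply, Equiv.swap_apply_def, Equiv.swap_apply_def]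
    have := Equiv.swap_apply_self j.castSucc j.succ l
    rw [← Equiv.swap_apply_def, ← Equiv.swap_apply_def, this]; exact h2

theorem subOf_swap (σ : Equiv.Perm (Fin 5)) (k l : Fin 4) (h : l ≠ k) :
    subOf (σ * Equiv.swap k.castSucc k.succ) l = subOf σ l := by
  have key : ∀ a : Fin 5, (Equiv.swap k.castSucc k.succ a) ≤ l.castSucc ↔ a ≤ l.castSucc := by
    revert k l; decide
  apply Subtype.ext
  ext a
  rw [mem_subOf, mem_subOf]
  have : (σ * Equiv.swap k.castSucc k.succ).symm a =
      Equiv.swap k.castSucc k.succ (σ.symm a) := by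
    rw [Equiv.symm_apply_eq, Equiv.Perm.mul_apply, Equiv.swap_apply_self,
      Equiv.apply_symm_apply]
  rw [this]; exact key _

theorem tau_last (σ : Equiv.Perm (Fin 5)) (π : Equiv.Perm (Fin 4)) {i : Fin 5}
    (hi : i ≠ Fin.last 4) :
    tau (σ * Equiv.swap (π (Fin.last 3)).castSucc (π (Fin.last 3)).succ) π i = tau σ π i := by
  have hl : ∀ l : Fin 4, l.castSucc < i → l ≠ Fin.last 3 := by
    revert i; decide
  ext A
  rw [mem_tau, mem_tau]
  constructor
  · rintro ⟨l, h1, h2⟩
    exact ⟨l, h1, by rw [← h2, subOf_swap _ _ _ (fun e => hl l h1 (π.injective e))]⟩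
  · rintro ⟨l, h1, h2⟩
    exact ⟨l, h1, by rw [subOf_swap _ _ _ (fun e => hl l h1 (π.injective e)), h2]⟩

/-- sign of a vertex -/
def sgnV (v : M.V) : ℤ :=
  (if M.β v 0 then -1 else 1) * (if M.β v 1 then -1 else 1) * (if M.β v 2 then -1 else 1) *
    (if M.β v 3 then -1 else 1)

theorem sgnV_fl (A : Sub) (v : M.V) : sgnV (M.fl A v) = - sgnV v := by
  unfold sgnV
  rw [M.beta, M.beta, M.beta, M.beta]
  generalize sz A = k
  generalize M.β v 0 = b0
  generalize M.β v 1 = b1
  generalize M.β v 2 = b2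
  generalize M.β v 3 = b3
  revert k b0 b1 b2 b3
  decide

theorem sgnV_sq (v : M.V) : sgnV v = 1 ∨ sgnV v = -1 := by
  unfold sgnV
  generalize M.β v 0 = b0
  generalize M.β v 1 = b1
  generalize M.β v 2 = b2
  generalize M.β v 3 = b3
  revert b0 b1 b2 b3
  decide

/-- sign of a top simplex -/
def sgnF (v : M.V) (σ : Equiv.Perm (Fin 5)) (π : Equiv.Perm (Fin 4)) : ℤ :=
  sgnV v * (Equiv.Perm.sign σ : ℤ) * (Equiv.Perm.sign π : ℤ)

/-- The simplicial coboundary of a 3-cochain (a function of four points of the poset) on the order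
complex of a poset. -/
def delta {P : Type} (c : (Fin 4 → P) → ℤ) (x : Fin 5 → P) : ℤ :=
  ∑ j : Fin 5, (-1) ^ (j : ℕ) * c (fun i => x (j.succAbove i))

theorem face_congr {P : Type} {x y : Fin 5 → P} {j : Fin 5} (h : ∀ i, i ≠ j → x i = y i) :
    (fun i : Fin 4 => x (j.succAbove i)) = fun i => y (j.succAbove i) := by
  funext i; exact h _ (Fin.succAbove_ne j i)

theorem sum_neg_zero {ι : Type} [Fintype ι] (f : ι → ℤ) (e : Equiv.Perm ι)
    (h : ∀ i, f (e i) = - f i) : ∑ i, f i = 0 := by
  have h1 : ∑ i, f (e i) = ∑ i, f i := Equiv.sum_comp e f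
  have h2 : ∑ i, f (e i) = - ∑ i, f i := by
    rw [← Finset.sum_neg_distrib]; exact Finset.sum_congr rfl (fun i _ => h i)
  omega

/-- The fundamental chain is a cycle. -/
theorem fund_cycle [Fintype M.V] (c : (Fin 4 → Cell M) → ℤ) :
    ∑ x : M.V × Equiv.Perm (Fin 5) × Equiv.Perm (Fin 4),
      sgnF x.1 x.2.1 x.2.2 * delta c (facet x.1 x.2.1 x.2.2) = 0 := by
  -- each face separately
  have key : ∀ j : Fin 5, ∑ v : M.V, ∑ σ : Equiv.Perm (Fin 5), ∑ π : Equiv.Perm (Fin 4),
      sgnF v σ π * ((-1) ^ (j : ℕ) * c (fun i => facet v σ π (j.succAbove i))) = 0 := by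
    intro j
    rcases Fin.eq_zero_or_eq_succ j with rfl | ⟨j, rfl⟩
    · rw [Finset.sum_comm]
      apply Finset.sum_eq_zero
      intro σ _
      rw [Finset.sum_comm]
      apply Finset.sum_eq_zero
      intro π _
      let e : Equiv.Perm M.V := ⟨M.fl (subOf σ (π 0)), M.fl (subOf σ (π 0)),
        M.fl_fl _, M.fl_fl _⟩
      apply sum_neg_zero _ e
      intro v
      have h1 : (fun i : Fin 4 => facet (e v) σ π ((0 : Fin 5).succAbove i)) =
          fun i => facet v σ π ((0 : Fin 5).succAbove i) :=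
        face_congr (fun i hi => facet_zero v σ π hi)
      rw [h1]
      have h2 : sgnF (e v) σ π = - sgnF v σ π := by
        unfold sgnF
        rw [show sgnV (e v) = - sgnV v from sgnV_fl _ v]; ring
      rw [h2]; ring
    · rcases Fin.eq_castSucc_or_eq_last j with ⟨j, rfl⟩ | rfl
      · apply Finset.sum_eq_zero
        intro v _
        apply Finset.sum_eq_zero
        intro σ _
        apply sum_neg_zero _ (Equiv.mulRight (Equiv.swap j.castSucc j.succ))
        intro π
        have hj : (j.castSucc.succ : Fin 5) = j.succ.castSucc := rfl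
        have h1 : (fun i : Fin 4 => facet v σ (π * Equiv.swap j.castSucc j.succ)
            (j.castSucc.succ.succAbove i)) =
            fun i => facet v σ π (j.castSucc.succ.succAbove i) := by
          apply face_congr
          intro i hi
          exact facet_eq_of (tau_mid σ π j (by rwa [hj] at hi)) (Mirror.mem_orbit_self _ _)
        rw [Equiv.coe_mulRight, h1]
        have h2 : sgnF v σ (π * Equiv.swap j.castSucc j.succ) = - sgnF v σ π := by
          unfold sgnF
          rw [Equiv.Perm.sign_mul, Equiv.Perm.sign_swap (by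
            intro h; have := congrArg Fin.val h; simp at this)]
          push_cast; ring
        rw [h2]; ring
      · apply Finset.sum_eq_zero
        intro v _
        rw [Finset.sum_comm]
        apply Finset.sum_eq_zero
        intro π _
        apply sum_neg_zero _ (Equiv.mulRight (Equiv.swap (π (Fin.last 3)).castSucc
          (π (Fin.last 3)).succ))
        intro σ
        have h1 : (fun i : Fin 4 => facet v (σ * Equiv.swap (π (Fin.last 3)).castSucc
            (π (Fin.last 3)).succ) π ((Fin.last 3).succ.succAbove i)) =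
            fun i => facet v σ π ((Fin.last 3).succ.succAbove i) := by
          apply face_congr
          intro i hi
          exact facet_eq_of (tau_last σ π hi) (Mirror.mem_orbit_self _ _)
        rw [Equiv.coe_mulRight, h1]
        have h2 : sgnF v (σ * Equiv.swap (π (Fin.last 3)).castSucc
            (π (Fin.last 3)).succ) π = - sgnF v σ π := by
          unfold sgnF
          rw [Equiv.Perm.sign_mul, Equiv.Perm.sign_swap (by
            intro h; have := congrArg Fin.val h; simp at this)]
          push_cast; ring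
        rw [h2]; ring
  have : ∀ x : M.V × Equiv.Perm (Fin 5) × Equiv.Perm (Fin 4),
      sgnF x.1 x.2.1 x.2.2 * delta c (facet x.1 x.2.1 x.2.2) =
      ∑ j : Fin 5, sgnF x.1 x.2.1 x.2.2 * ((-1) ^ (j : ℕ) *
        c (fun i => facet x.1 x.2.1 x.2.2 (j.succAbove i))) := by
    intro x
    unfold delta
    rw [Finset.mul_sum]
  simp only [this]
  rw [Finset.sum_comm]
  refine Finset.sum_eq_zero (fun j _ => ?_)
  rw [← key j, Fintype.sum_prod_type]
  refine Finset.sum_congr rfl (fun v _ => ?_)
  rw [Fintype.sum_prod_type]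

theorem chain_enum {α : Type} [DecidableEq α] {n : ℕ} (T : Fin (n + 1) → Finset α)
    (hm : ∀ i : Fin n, T i.castSucc ⊆ T i.succ) (hc : ∀ j, (T j).card = j.val) :
    ∃ b : Fin n → α, Function.Injective b ∧
      ∀ i a, a ∈ T i ↔ ∃ l : Fin n, l.castSucc < i ∧ b l = a := by
  have h1 : ∀ i : Fin n, ∃ a ∉ T i.castSucc, insert a (T i.castSucc) = T i.succ := by
    intro i
    rw [Finset.exists_eq_insert_iff]
    exact ⟨hm i, by rw [hc, hc]; simp⟩
  choose b hb1 hb2 using h1
  have h2 : ∀ i a, a ∈ T i ↔ ∃ l : Fin n, l.castSucc < i ∧ b l = a := by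
    intro i
    induction i using Fin.induction with
    | zero =>
      intro a
      have : T 0 = ∅ := by rw [← Finset.card_eq_zero, hc]; rfl
      rw [this]
      constructor
      · intro h; simp at h
      · rintro ⟨l, hl, _⟩; exact absurd hl (Fin.not_lt_zero _)
    | succ i ih =>
      intro a
      rw [← hb2 i, Finset.mem_insert, ih]
      constructor
      · rintro (rfl | ⟨l, hl, rfl⟩)
        · exact ⟨i, Fin.castSucc_lt_succ, rfl⟩
        · exact ⟨l, hl.trans Fin.castSucc_lt_succ, rfl⟩
      · rintro ⟨l, hl, rfl⟩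
        rcases eq_or_ne l i with rfl | hne
        · left; rfl
        · right
          refine ⟨l, ?_, rfl⟩
          rw [Fin.lt_def] at hl ⊢
          simp only [Fin.val_castSucc, Fin.val_succ] at hl ⊢
          have : l.val ≠ i.val := fun e => hne (Fin.ext e)
          omega
  refine ⟨b, ?_, h2⟩
  intro l m hlm
  rcases lt_trichotomy l m with h | h | h
  · exfalso
    apply hb1 m
    rw [h2]; exact ⟨l, by simpa using h, hlm⟩
  · exact h
  · exfalso
    apply hb1 l
    rw [h2]; exact ⟨m, by simpa using h, hlm.symm⟩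

theorem strictMono_card {f : Fin 5 → ℕ} (h : StrictMono f) (h4 : f 4 ≤ 4) (j : Fin 5) :
    f j = j.val := by
  have a0 := h (show (0 : Fin 5) < 1 by decide)
  have a1 := h (show (1 : Fin 5) < 2 by decide)
  have a2 := h (show (2 : Fin 5) < 3 by decide)
  have a3 := h (show (3 : Fin 5) < 4 by decide)
  have : f 0 = 0 ∧ f 1 = 1 ∧ f 2 = 2 ∧ f 3 = 3 ∧ f 4 = 4 := by omega
  obtain ⟨b0, b1, b2, b3, b4⟩ := this
  fin_cases j <;> assumption

/-- Every strictly increasing sequence of five cells is a facet. -/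
theorem facet_surj (x : Fin 5 → Cell M) (hx : StrictMono x) :
    ∃ (v : M.V) (σ : Equiv.Perm (Fin 5)) (π : Equiv.Perm (Fin 4)), facet v σ π = x := by
  have hτ : ∀ i j, i < j → (x i).τ ⊂ (x j).τ := fun i j h => Cell.lt_tau (hx h)
  have hch := (x 4).chain
  have hszinj : Set.InjOn sz ((x 4).τ : Set Sub) := by
    intro A hA B hB h
    by_contra hne
    exact sz_ne hne (hch hA hB hne) h
  have hc4 : (x 4).τ.card ≤ 4 := by
    have := Finset.card_le_card_of_injOn (s := (x 4).τ) (t := (Finset.univ : Finset (Fin 4))) sz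
      (fun _ _ => Finset.mem_coe.2 (Finset.mem_univ _)) hszinj
    simpa using this
  have hcard : ∀ j, (x j).τ.card = j.val :=
    strictMono_card (f := fun j => (x j).τ.card) (fun i j h => Finset.card_lt_card (hτ i j h)) hc4
  obtain ⟨B, hBinj, hB⟩ := chain_enum (fun j => (x j).τ)
    (fun i => (hτ _ _ Fin.castSucc_lt_succ).1) hcard
  have hB4 : ∀ l, B l ∈ (x 4).τ := fun l => (hB 4 _).2 ⟨l, Fin.castSucc_lt_last l, rfl⟩
  have hπinj : Function.Injective (fun l => sz (B l)) := by
    intro l m h
    exact hBinj (hszinj (Finset.mem_coe.2 (hB4 l)) (Finset.mem_coe.2 (hB4 m)) h)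
  let π : Equiv.Perm (Fin 4) :=
    Equiv.ofBijective (fun l => sz (B l)) (Finite.injective_iff_bijective.1 hπinj)
  have hπ : ∀ l, π l = sz (B l) := fun l => rfl
  -- the subsets sorted by size
  let A : Fin 4 → Sub := fun k => B (π.symm k)
  have hAsz : ∀ k, sz (A k) = k := by
    intro k
    show sz (B (π.symm k)) = k
    rw [← hπ, Equiv.apply_symm_apply]
  have hAcard : ∀ k, (A k).1.card = k.val + 1 := by
    intro k
    have h1 := congrArg Fin.val (hAsz k)
    have h2 : 0 < (A k).1.card := (A k).2.1.card_pos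
    have h3 : (sz (A k)).val = (A k).1.card - 1 := rfl
    omega
  have hAle : ∀ k l, k ≤ l → (A k).1 ⊆ (A l).1 := by
    intro k l hkl
    rcases eq_or_ne k l with rfl | hne
    · exact le_rfl
    · have hne' : A k ≠ A l := by
        intro e
        have := congrArg sz e
        rw [hAsz, hAsz] at this
        exact hne this
      rcases hch (Finset.mem_coe.2 (hB4 _)) (Finset.mem_coe.2 (hB4 _)) hne' with h | h
      · exact h
      · have := Finset.card_le_card (show (A l).1 ⊆ (A k).1 from h)
        rw [hAcard, hAcard] at this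
        have : l.val ≤ k.val := by omega
        exact absurd (le_antisymm hkl this) hne
  let T : Fin 6 → Finset (Fin 5) := fun j =>
    if h : j.val = 0 then ∅ else if h2 : j.val ≤ 4 then (A ⟨j.val - 1, by omega⟩).1
      else Finset.univ
  have hT0 : ∀ j : Fin 6, j.val = 0 → T j = ∅ := fun j h => dif_pos h
  have hT1 : ∀ (j : Fin 6) (k : Fin 4), j.val = k.val + 1 → T j = (A k).1 := by
    intro j k h
    have h0 : ¬ j.val = 0 := by omega
    have h2 : j.val ≤ 4 := by omega
    show (if h : j.val = 0 then ∅ else if h2 : j.val ≤ 4 then (A ⟨j.val - 1, by omega⟩).1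
      else Finset.univ) = _
    rw [dif_neg h0, dif_pos h2]
    congr 2
    exact Fin.ext (by simp; omega)
  have hT5 : ∀ j : Fin 6, j.val = 5 → T j = Finset.univ := by
    intro j h
    show (if h : j.val = 0 then ∅ else if h2 : j.val ≤ 4 then (A ⟨j.val - 1, by omega⟩).1
      else Finset.univ) = _
    rw [dif_neg (by omega), dif_neg (by omega)]
  obtain ⟨s, hsinj, hs⟩ := chain_enum T (by
    intro i
    rcases Nat.eq_zero_or_pos i.val with h | h
    · rw [hT0 _ (by simpa using h)]; exact Finset.empty_subset _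
    · rcases Nat.lt_or_ge i.val 4 with h4 | h4
      · rw [hT1 i.castSucc ⟨i.val - 1, by omega⟩ (by simp; omega), hT1 i.succ ⟨i.val, h4⟩ (by simp)]
        exact hAle _ _ (by rw [Fin.le_def]; simp)
      · rw [hT5 i.succ (by simp; omega)]; exact Finset.subset_univ _) (by
    intro j
    rcases Nat.eq_zero_or_pos j.val with h | h
    · rw [hT0 _ h, h]; rfl
    · rcases Nat.lt_or_ge j.val 5 with h4 | h4
      · rw [hT1 j ⟨j.val - 1, by omega⟩ (by simp; omega), hAcard]; simp; omega
      · have : j.val = 5 := by omega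
        rw [hT5 j this, this]; rfl)
  let σ : Equiv.Perm (Fin 5) := Equiv.ofBijective s (Finite.injective_iff_bijective.1 hsinj)
  have hσ : ∀ l, σ l = s l := fun l => rfl
  have hsubOf : ∀ k, subOf σ k = A k := by
    intro k
    apply Subtype.ext
    ext a
    rw [mem_subOf, ← hT1 ⟨k.val + 1, by omega⟩ k rfl, hs]
    constructor
    · intro h
      refine ⟨σ.symm a, ?_, by rw [← hσ, Equiv.apply_symm_apply]⟩
      rw [Fin.le_def] at h
      rw [Fin.lt_def]
      simp only [Fin.val_castSucc] at h ⊢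
      omega
    · rintro ⟨l, hl, rfl⟩
      rw [← hσ, Equiv.symm_apply_apply]
      rw [Fin.lt_def] at hl
      rw [Fin.le_def]
      simp only [Fin.val_castSucc] at hl ⊢
      omega
  obtain ⟨v, hv⟩ := (x 0).nonempty
  refine ⟨v, σ, π, ?_⟩
  funext j
  have htau : tau σ π j = (x j).τ := by
    ext C
    rw [mem_tau, hB]
    have : ∀ l, subOf σ (π l) = B l := by
      intro l
      rw [hsubOf]
      show B (π.symm (π l)) = B l
      rw [Equiv.symm_apply_apply]
    simp only [this]
  have hvj : v ∈ (x j).s := (hx.monotone (Fin.zero_le j)).2 hv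
  apply Cell.ext
  · exact htau
  · rw [Cell.s_eq hvj, ← htau]; rfl

theorem facet_inj {v v' : M.V} {σ σ' : Equiv.Perm (Fin 5)} {π π' : Equiv.Perm (Fin 4)}
    (h : facet v σ π = facet v' σ' π') : v = v' ∧ σ = σ' ∧ π = π' := by
  have h0 : v = v' := by
    have := congrArg Cell.s (congrFun h 0)
    have e : ∀ (w : M.V) (σ : Equiv.Perm (Fin 5)) (π : Equiv.Perm (Fin 4)),
        (facet w σ π 0).s = {w} := by
      intro w σ π
      have : tau σ π 0 = ∅ := by
        rw [← Finset.card_eq_zero, card_tau]; rfl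
      show M.orbit (tau σ π 0) w = {w}
      rw [this, Mirror.orbit_empty]
    rw [e, e] at this
    exact Set.singleton_injective this
  have ht : ∀ j, tau σ π j = tau σ' π' j := fun j => congrArg Cell.τ (congrFun h j)
  -- the elements inserted agree
  have hins : ∀ l : Fin 4, subOf σ (π l) = subOf σ' (π' l) := by
    intro l
    have h1 : subOf σ (π l) ∈ tau σ' π' l.succ := by
      rw [← ht, mem_tau]; exact ⟨l, Fin.castSucc_lt_succ, rfl⟩
    have h2 : subOf σ (π l) ∉ tau σ' π' l.castSucc := by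
      rw [← ht, mem_tau]
      rintro ⟨m, hm, he⟩
      have := π.injective (subOf_inj he)
      rw [this] at hm; exact lt_irrefl _ hm
    rw [mem_tau] at h1 h2
    obtain ⟨m, hm, he⟩ := h1
    have : m = l := by
      by_contra hne
      apply h2
      refine ⟨m, ?_, he⟩
      rw [Fin.lt_def] at hm ⊢
      simp only [Fin.val_castSucc, Fin.val_succ] at hm ⊢
      have : m.val ≠ l.val := fun e => hne (Fin.ext e)
      omega
    rw [← this]; rw [this] at he ⊢; exact he.symm
  have hπ : π = π' := by
    apply Equiv.ext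
    intro l
    have := congrArg sz (hins l)
    rwa [sz_subOf, sz_subOf] at this
  subst hπ
  have hsub : ∀ k, subOf σ k = subOf σ' k := by
    intro k
    have := hins (π.symm k)
    simpa using this
  have hσ : ∀ k : Fin 4, ∀ a, σ.symm a ≤ k.castSucc ↔ σ'.symm a ≤ k.castSucc := by
    intro k a
    rw [← mem_subOf, ← mem_subOf, hsub k]
  refine ⟨h0, ?_, rfl⟩
  have : ∀ a, σ.symm a = σ'.symm a := by
    intro a
    have h1 := fun k => hσ k a
    generalize σ.symm a = s at *
    generalize σ'.symm a = t at *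
    revert s t; decide
  have h3 : σ.symm = σ'.symm := Equiv.ext this
  calc σ = σ.symm.symm := rfl
    _ = σ'.symm.symm := by rw [h3]
    _ = σ' := rfl

end Pool.Agent.FC640
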