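import Pool.Agent.FC640.Circle

/-!
# Expansion maps of marked circles and their labels
-/

namespace Pool.Agent.FC640

open Real

/-- Position in the circle with `7 + p` leaves (after expanding the leaves `L 0, …, L (p-1)`) of
the leaf `L k`. -/
def pos (L : ℕ → ℕ) (p k : ℕ) : ℕ :=
  L k + (Finset.filter (fun j => L j < L k) (Finset.range p)).card

/-- The expansion map from level `p` to level `p + d`, in the coordinates of the real line: the
leaves `L p, …, L (p + d - 1)` are expanded one after the other. -/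
noncomputable def expd (L : ℕ → ℕ) (p : ℕ) : ℕ → ℝ → ℝ
  | 0, x => x
  | d + 1, x => expd L p d x +
      stair (7 + (p + d)) (expd L p d x - (pos L (p + d) (p + d) : ℕ))

/-- `L` lists distinct leaves. -/
def LOK (L : ℕ → ℕ) : Prop :=
  (∀ k < 4, L k < 7) ∧ ∀ j < 4, ∀ k < 4, L j = L k → j = k

theorem pos_lt {L : ℕ → ℕ} (h : LOK L) {p k : ℕ} (hk : k < 4) : pos L p k < 7 + p := by
  unfold pos
  have h1 := h.1 k hk
  have h2 : (Finset.filter (fun j => L j < L k) (Finset.range p)).card ≤ p := by
    simpa using Finset.card_filter_le (Finset.range p) (fun j => L j < L k)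
  omega

theorem pos_succ (L : ℕ → ℕ) (p k : ℕ) :
    pos L (p + 1) k = pos L p k + if L p < L k then 1 else 0 := by
  unfold pos
  rw [Finset.range_add_one, Finset.filter_insert]
  split_ifs with h
  · rw [Finset.card_insert_of_notMem (by simp)]; omega
  · rfl

theorem pos_lt_iff {L : ℕ → ℕ} (p : ℕ) {j k : ℕ} :
    pos L p j < pos L p k ↔ L j < L k := by
  have key : ∀ a b, L a ≤ L b → pos L p a - L a ≤ pos L p b - L b := by
    intro a b hab
    unfold pos
    simp only [Nat.add_sub_cancel_left]
    apply Finset.card_le_card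
    intro x hx
    simp only [Finset.mem_filter] at hx ⊢
    exact ⟨hx.1, by omega⟩
  have hge : ∀ a, L a ≤ pos L p a := fun a => by unfold pos; omega
  constructor
  · intro h
    by_contra hc
    have := key k j (by omega)
    have := hge j; have := hge k
    omega
  · intro h
    have := key j k (by omega)
    have := hge j; have := hge k
    omega

theorem expd_leaf {L : ℕ → ℕ} (h : LOK L) (p : ℕ) (d : ℕ) :
    ∀ k, p + d ≤ k → k < 4 → ∀ x, stair (7 + (p + d)) (expd L p d x - (pos L (p + d) k : ℕ)) =
      stair (7 + p) (x - (pos L p k : ℕ)) := by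
  induction d with
  | zero => intro k _ _ x; rfl
  | succ d ih =>
    intro k hk hk4 x
    have hne : L (p + d) ≠ L k := fun he => by
      have := h.2 _ (by omega) _ hk4 he; omega
    have hpne : pos L (p + d) (p + d) ≠ pos L (p + d) k := by
      intro he
      rcases lt_or_gt_of_ne hne with h1 | h1
      · have := (pos_lt_iff (L := L) (p + d)).2 h1; omega
      · have := (pos_lt_iff (L := L) (p + d)).2 h1; omega
    have hs := stair_step (n := 7 + (p + d)) (by omega)
      (a := (pos L (p + d) (p + d) : ℕ)) (b := (pos L (p + d) k : ℕ)) (by positivity)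
      (by have := pos_lt h (p := p + d) (k := p + d) (by omega); exact_mod_cast this)
      (by positivity)
      (by have := pos_lt h (p := p + d) (k := k) (by omega); exact_mod_cast this)
      (by exact_mod_cast hpne) (expd L p d x)
    rw [← ih k (by omega) hk4 x]
    have e1 : 7 + (p + (d + 1)) = 7 + (p + d) + 1 := by ring
    have e2 : pos L (p + (d + 1)) k =
        pos L (p + d) k + if pos L (p + d) (p + d) < pos L (p + d) k then 1 else 0 := by
      rw [← add_assoc, pos_succ]
      simp only [pos_lt_iff]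
    rw [e1, e2]
    simp only [expd]
    have hcast : (((pos L (p + d) k : ℕ) : ℤ) +
        if ((pos L (p + d) (p + d) : ℕ) : ℤ) < ((pos L (p + d) k : ℕ) : ℤ) then 1 else 0 : ℤ) =
        ((pos L (p + d) k + if pos L (p + d) (p + d) < pos L (p + d) k then 1 else 0 : ℕ) : ℤ) := by
      by_cases hc : pos L (p + d) (p + d) < pos L (p + d) k
      · rw [if_pos hc, if_pos (by exact_mod_cast hc)]; push_cast; rfl
      · rw [if_neg hc, if_neg (by exact_mod_cast hc)]; push_cast; rfl
    rw [hcast] at hs
    exact_mod_cast hs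

theorem expd_eq_sum {L : ℕ → ℕ} (h : LOK L) (p d : ℕ) (hd : p + d ≤ 4) (x : ℝ) :
    expd L p d x = x + ∑ k ∈ Finset.range d, stair (7 + p) (x - (pos L p (p + k) : ℕ)) := by
  induction d with
  | zero => simp [expd]
  | succ d ih =>
    rw [expd, expd_leaf h p d (p + d) le_rfl (by omega) x, Finset.sum_range_succ,
      ih (by omega)]
    ring

theorem expd_comp (L : ℕ → ℕ) (p d e : ℕ) (x : ℝ) :
    expd L (p + d) e (expd L p d x) = expd L p (d + e) x := by
  induction e with
  | zero => rfl
  | succ e ih =>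
    rw [expd, ih, ← add_assoc d e 1, expd]
    simp only [add_assoc]

theorem expd_add {L : ℕ → ℕ} (p d : ℕ) (x : ℝ) (k : ℤ) :
    expd L p d (x + k * ((7 + p : ℕ) : ℝ)) = expd L p d x + k * ((7 + (p + d) : ℕ) : ℝ) := by
  induction d with
  | zero => rfl
  | succ d ih =>
    rw [expd, ih]
    have : expd L p d x + k * ((7 + (p + d) : ℕ) : ℝ) - (pos L (p + d) (p + d) : ℕ) =
      (expd L p d x - (pos L (p + d) (p + d) : ℕ)) + k * ((7 + (p + d) : ℕ) : ℝ) := by ring
    rw [this, stair_add (by omega), expd]
    push_cast; ring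

theorem expd_contDiff (L : ℕ → ℕ) (p d : ℕ) : ContDiff ℝ (⊤ : ℕ∞) (expd L p d) := by
  induction d with
  | zero => exact contDiff_id
  | succ d ih =>
    exact ih.add ((stair_contDiff (by omega)).comp (ih.sub contDiff_const))

theorem expd_deriv (L : ℕ → ℕ) (p d : ℕ) (x : ℝ) : 1 ≤ deriv (expd L p d) x := by
  induction d with
  | zero => simp [show expd L p 0 = fun x => x from rfl]
  | succ d ih =>
    have hd1 : DifferentiableAt ℝ (expd L p d) x :=
      (expd_contDiff L p d).differentiable (by simp) x
    have hd2 : DifferentiableAt ℝ (stair (7 + (p + d)))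
        (expd L p d x - (pos L (p + d) (p + d) : ℕ)) :=
      (stair_contDiff (by omega)).differentiable (by simp) _
    have hmono := (stair_mono (n := 7 + (p + d)) (by omega)).deriv_nonneg
      (x := expd L p d x - (pos L (p + d) (p + d) : ℕ))
    have hc : HasDerivAt (expd L p (d + 1)) (deriv (expd L p d) x +
        deriv (stair (7 + (p + d))) (expd L p d x - (pos L (p + d) (p + d) : ℕ)) *
          deriv (expd L p d) x) x := by
      apply hd1.hasDerivAt.add
      exact hd2.hasDerivAt.comp x (hd1.hasDerivAt.sub_const _)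
    rw [hc.deriv]
    nlinarith [mul_nonneg hmono (by linarith : 0 ≤ deriv (expd L p d) x)]

/-- Image of the left end point of the leaf `m` of level `p` at level `p + d`. -/
def endp (L : ℕ → ℕ) (p d m : ℕ) : ℕ :=
  m + (Finset.filter (fun k => pos L p (p + k) < m) (Finset.range d)).card

theorem expd_nat {L : ℕ → ℕ} (h : LOK L) (p d : ℕ) (hd : p + d ≤ 4) (m : ℕ) (hm : m < 7 + p) :
    expd L p d m = endp L p d m := by
  rw [expd_eq_sum h p d hd]
  unfold endp
  rw [Finset.card_filter]
  push_cast
  congr 1
  apply Finset.sum_congr rfl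
  intro k hk
  have hk' := Finset.mem_range.1 hk
  have hp := pos_lt h (p := p) (k := p + k) (by omega)
  have := stair_int (n := 7 + p) (by omega) (a := (m : ℤ) - (pos L p (p + k) : ℕ))
    (by omega) (by omega)
  push_cast at this
  rw [this]
  simp only [sub_pos, Nat.cast_lt]

theorem endp_lt {L : ℕ → ℕ} (p d m : ℕ) (hm : m < 7 + p) : endp L p d m < 7 + (p + d) := by
  unfold endp
  have h2 : (Finset.filter (fun k => pos L p (p + k) < m) (Finset.range d)).card ≤ d := by
    simpa using Finset.card_filter_le (Finset.range d) (fun k => pos L p (p + k) < m)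
  omega

/-- the normalising integer of the label -/
def cnorm (L : ℕ → ℕ) (p d m m' : ℕ) : ℤ := if endp L p d m < m' then -1 else 0

/-- The label (a lift of a circle diffeomorphism) of the expansion from level `p` with marked leaf
`m` to level `p + d` with marked leaf `m'`; both circles are rescaled to length `1` and their
origin is put at the left end of the marked leaf. -/
noncomputable def labFun (L : ℕ → ℕ) (p d m m' : ℕ) (t : ℝ) : ℝ :=
  (expd L p d (((7 + p : ℕ) : ℝ) * t + m) - m') / ((7 + (p + d) : ℕ) : ℝ) - cnorm L p d m m'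

theorem labFun_contDiff (L : ℕ → ℕ) (p d m m' : ℕ) : ContDiff ℝ (⊤ : ℕ∞) (labFun L p d m m') := by
  unfold labFun
  exact (((expd_contDiff L p d).comp ((contDiff_const.mul contDiff_id).add contDiff_const)).sub
    contDiff_const).div_const _ |>.sub contDiff_const

theorem labFun_deriv (L : ℕ → ℕ) (p d m m' : ℕ) (t : ℝ) : 0 < deriv (labFun L p d m m') t := by
  have hd1 : DifferentiableAt ℝ (expd L p d) (((7 + p : ℕ) : ℝ) * t + m) :=
    (expd_contDiff L p d).differentiable (by simp) _
  have hc : HasDerivAt (labFun L p d m m')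
      ((deriv (expd L p d) (((7 + p : ℕ) : ℝ) * t + m) * (((7 + p : ℕ) : ℝ) * 1)) /
        ((7 + (p + d) : ℕ) : ℝ)) t := by
    apply HasDerivAt.sub_const
    apply HasDerivAt.div_const
    apply HasDerivAt.sub_const
    exact hd1.hasDerivAt.comp t (((hasDerivAt_id t).const_mul _).add_const _)
  rw [hc.deriv]
  have := expd_deriv L p d (((7 + p : ℕ) : ℝ) * t + m)
  positivity

theorem labFun_add (L : ℕ → ℕ) (p d m m' : ℕ) (t : ℝ) :
    labFun L p d m m' (t + 1) = labFun L p d m m' t + 1 := by
  unfold labFun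
  have : ((7 + p : ℕ) : ℝ) * (t + 1) + m =
      (((7 + p : ℕ) : ℝ) * t + m) + ((1 : ℤ) : ℝ) * ((7 + p : ℕ) : ℝ) := by push_cast; ring
  rw [this, expd_add]
  have hn : ((7 + (p + d) : ℕ) : ℝ) ≠ 0 := by positivity
  field_simp
  push_cast; ring

/-- The label as an element of the group of lifts. -/
noncomputable def labL (L : ℕ → ℕ) (p d m m' : ℕ) : Lifts :=
  mkLift (labFun L p d m m') (labFun_contDiff L p d m m') (labFun_deriv L p d m m')
    (labFun_add L p d m m')

/-- Composition of labels. -/
theorem labL_comp (L : ℕ → ℕ) (p d e m m' m'' : ℕ) :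
    labL L (p + d) e m' m'' * labL L p d m m' =
      tr ^ (cnorm L p (d + e) m m'' - cnorm L p d m m' - cnorm L (p + d) e m' m'') *
        labL L p (d + e) m m'' := by
  apply Subtype.ext
  apply Equiv.ext
  intro t
  simp only [Subgroup.coe_mul, Equiv.Perm.mul_apply, tr_zpow_apply]
  show labFun L (p + d) e m' m'' (labFun L p d m m' t) = labFun L p (d + e) m m'' t + _
  unfold labFun
  have hn : ((7 + (p + d) : ℕ) : ℝ) ≠ 0 := by positivity
  have : ((7 + (p + d) : ℕ) : ℝ) * ((expd L p d (((7 + p : ℕ) : ℝ) * t + m) - m') /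
      ((7 + (p + d) : ℕ) : ℝ) - (cnorm L p d m m' : ℝ)) + m' =
      expd L p d (((7 + p : ℕ) : ℝ) * t + m) +
        ((-cnorm L p d m m' : ℤ) : ℝ) * ((7 + (p + d) : ℕ) : ℝ) := by
    field_simp; push_cast; ring
  rw [this, expd_add, expd_comp]
  have e1 : 7 + (p + d + e) = 7 + (p + (d + e)) := by ring
  rw [e1]
  have hn2 : ((7 + (p + (d + e)) : ℕ) : ℝ) ≠ 0 := by positivity
  field_simp
  push_cast; ring

/-- relative position of the `k`-th expanded leaf to the marked leaf -/
def relp (L : ℕ → ℕ) (p m k : ℕ) : ℕ := (pos L p (p + k) + (7 + p) - m) % (7 + p)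

/-- Canonical form of the label. -/
theorem labFun_canon {L : ℕ → ℕ} (h : LOK L) (p d : ℕ) (hd : p + d ≤ 4) (m m' : ℕ)
    (hm : m < 7 + p) (hm' : m' < 7 + (p + d)) (t : ℝ) :
    labFun L p d m m' t = (((7 + p : ℕ) : ℝ) * t +
      ∑ k ∈ Finset.range d, stair (7 + p) (((7 + p : ℕ) : ℝ) * t - (relp L p m k : ℕ)) +
        (((endp L p d m + (7 + (p + d)) - m') % (7 + (p + d)) : ℕ) : ℝ)) /
          ((7 + (p + d) : ℕ) : ℝ) := by
  unfold labFun
  rw [expd_eq_sum h p d hd]
  have hn : ((7 + (p + d) : ℕ) : ℝ) ≠ 0 := by positivity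
  have hsum : ∀ k ∈ Finset.range d,
      stair (7 + p) (((7 + p : ℕ) : ℝ) * t + m - (pos L p (p + k) : ℕ)) =
      stair (7 + p) (((7 + p : ℕ) : ℝ) * t - (relp L p m k : ℕ)) +
        if pos L p (p + k) < m then 1 else 0 := by
    intro k hk
    have hk' := Finset.mem_range.1 hk
    have hp := pos_lt h (p := p) (k := p + k) (by omega)
    unfold relp
    split_ifs with hlt
    · have e1 : (pos L p (p + k) + (7 + p) - m) % (7 + p) = pos L p (p + k) + (7 + p) - m :=
        Nat.mod_eq_of_lt (by omega)
      rw [e1]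
      have e2 : ((pos L p (p + k) + (7 + p) - m : ℕ) : ℝ) =
          (pos L p (p + k) : ℝ) + ((7 + p : ℕ) : ℝ) - m := by
        rw [Nat.cast_sub (by omega)]; push_cast; ring
      have e3 : ((7 + p : ℕ) : ℝ) * t + m - (pos L p (p + k) : ℕ) =
          (((7 + p : ℕ) : ℝ) * t - ((pos L p (p + k) + (7 + p) - m : ℕ) : ℝ)) +
            ((1 : ℤ) : ℝ) * ((7 + p : ℕ) : ℝ) := by
        rw [e2]; push_cast; ring
      rw [e3, stair_add (by omega)]; push_cast; ring
    · have e1 : (pos L p (p + k) + (7 + p) - m) % (7 + p) = pos L p (p + k) - m := by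
        rw [show pos L p (p + k) + (7 + p) - m = (pos L p (p + k) - m) + (7 + p) by omega,
          Nat.add_mod_right, Nat.mod_eq_of_lt (by omega)]
      rw [e1, Nat.cast_sub (by omega), add_zero]
      congr 1; ring
  rw [Finset.sum_congr rfl hsum, Finset.sum_add_distrib]
  have hcard : (∑ k ∈ Finset.range d, (if pos L p (p + k) < m then (1 : ℝ) else 0)) =
      ((Finset.filter (fun k => pos L p (p + k) < m) (Finset.range d)).card : ℝ) := by
    rw [Finset.card_filter]; push_cast; rfl
  rw [hcard]
  have hE := endp_lt (L := L) p d m hm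
  have hoff : (((endp L p d m + (7 + (p + d)) - m') % (7 + (p + d)) : ℕ) : ℝ) =
      (endp L p d m : ℝ) - m' - cnorm L p d m m' * ((7 + (p + d) : ℕ) : ℝ) := by
    unfold cnorm
    split_ifs with hlt
    · rw [Nat.mod_eq_of_lt (by omega), Nat.cast_sub (by omega)]; push_cast; ring
    · rw [show endp L p d m + (7 + (p + d)) - m' = (endp L p d m - m') + (7 + (p + d)) by omega,
        Nat.add_mod_right, Nat.mod_eq_of_lt (by omega), Nat.cast_sub (by omega)]
      push_cast; ring
  rw [hoff]
  have hend : (endp L p d m : ℝ) = m +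
      ((Finset.filter (fun k => pos L p (p + k) < m) (Finset.range d)).card : ℝ) := by
    unfold endp; push_cast; rfl
  rw [hend]
  field_simp
  ring

/-- bit mask of the relative positions -/
def mask (L : ℕ → ℕ) (p d m : ℕ) : ℕ := ∑ k ∈ Finset.range d, 2 ^ relp L p m k

theorem relp_inj {L : ℕ → ℕ} (h : LOK L) (p d : ℕ) (hd : p + d ≤ 4) (m : ℕ)
    (hm : m < 7 + p) : Set.InjOn (relp L p m) (Finset.range d : Set ℕ) := by
  intro j hj k hk hjk
  simp only [Finset.coe_range, Set.mem_Iio] at hj hk
  have h1 := pos_lt h (p := p) (k := p + j) (by omega)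
  have h2 := pos_lt h (p := p) (k := p + k) (by omega)
  have hpos : pos L p (p + j) = pos L p (p + k) := by
    unfold relp at hjk
    rcases Nat.lt_or_ge (pos L p (p + j)) m with c1 | c1 <;>
    rcases Nat.lt_or_ge (pos L p (p + k)) m with c2 | c2
    · rw [Nat.mod_eq_of_lt (by omega), Nat.mod_eq_of_lt (by omega)] at hjk; omega
    · rw [Nat.mod_eq_of_lt (by omega),
        show pos L p (p + k) + (7 + p) - m = (pos L p (p + k) - m) + (7 + p) by omega,
        Nat.add_mod_right, Nat.mod_eq_of_lt (by omega)] at hjk; omega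
    · rw [Nat.mod_eq_of_lt (a := pos L p (p + k) + (7 + p) - m) (by omega),
        show pos L p (p + j) + (7 + p) - m = (pos L p (p + j) - m) + (7 + p) by omega,
        Nat.add_mod_right, Nat.mod_eq_of_lt (by omega)] at hjk; omega
    · rw [show pos L p (p + k) + (7 + p) - m = (pos L p (p + k) - m) + (7 + p) by omega,
        show pos L p (p + j) + (7 + p) - m = (pos L p (p + j) - m) + (7 + p) by omega,
        Nat.add_mod_right, Nat.add_mod_right, Nat.mod_eq_of_lt (by omega),
        Nat.mod_eq_of_lt (by omega)] at hjk; omega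
  have hL : L (p + j) = L (p + k) := by
    rcases lt_trichotomy (L (p + j)) (L (p + k)) with c | c | c
    · have := (pos_lt_iff (L := L) p).2 c; omega
    · exact c
    · have := (pos_lt_iff (L := L) p).2 c; omega
  have := h.2 _ (by omega) _ (by omega) hL
  omega

/-- Equality of labels from equality of the combinatorial data. -/
theorem labL_eq {L L' : ℕ → ℕ} (h : LOK L) (h' : LOK L') (p d : ℕ) (hd : p + d ≤ 4)
    (m n m' n' : ℕ) (hm : m < 7 + p) (hn : n < 7 + (p + d)) (hm' : m' < 7 + p)
    (hn' : n' < 7 + (p + d)) (hmask : mask L p d m = mask L' p d m')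
    (hoff : (endp L p d m + (7 + (p + d)) - n) % (7 + (p + d)) =
      (endp L' p d m' + (7 + (p + d)) - n') % (7 + (p + d))) :
    labL L p d m n = labL L' p d m' n' := by
  apply Subtype.ext
  apply Equiv.ext
  intro t
  show labFun L p d m n t = labFun L' p d m' n' t
  rw [labFun_canon h p d hd m n hm hn, labFun_canon h' p d hd m' n' hm' hn', hoff]
  have i1 := relp_inj h p d hd m hm
  have i2 := relp_inj h' p d hd m' hm'
  have himg : (Finset.range d).image (relp L p m) = (Finset.range d).image (relp L' p m') := by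
    apply Finset.geomSum_injective (le_refl 2)
    show ∑ i ∈ (Finset.range d).image (relp L p m), 2 ^ i =
      ∑ i ∈ (Finset.range d).image (relp L' p m'), 2 ^ i
    rw [Finset.sum_image i1, Finset.sum_image i2]
    exact hmask
  have hs : ∀ f : ℕ → ℝ, ∑ k ∈ Finset.range d, f (relp L p m k) =
      ∑ k ∈ Finset.range d, f (relp L' p m' k) := by
    intro f
    rw [← Finset.sum_image (f := f) i1, ← Finset.sum_image (f := f) i2, himg]
  rw [hs (fun r => stair (7 + p) (((7 + p : ℕ) : ℝ) * t - (r : ℕ)))]

end Pool.Agent.FC640
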