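import Mathlib

/-!
# Mirrored cube complexes with vertex links the barycentric subdivision of the boundary of the
4-simplex
-/

namespace Pool.Agent.FC640

/-- The proper non-empty subsets of the set of five colours, ordered by inclusion. -/
abbrev Sub := {A : Finset (Fin 5) // A.Nonempty ∧ A ≠ Finset.univ}

/-- `sz A + 1` is the number of elements of `A`. -/
def sz (A : Sub) : Fin 4 :=
  ⟨A.1.card - 1, by
    have h1 : A.1.card < (Finset.univ : Finset (Fin 5)).card :=
      Finset.card_lt_card (Finset.ssubset_univ_iff.2 A.2.2)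
    have h2 : 0 < A.1.card := A.2.1.card_pos
    simp only [Finset.card_univ, Fintype.card_fin] at h1
    omega⟩

theorem sz_lt {A B : Sub} (h : A < B) : sz A < sz B := by
  have h1 : A.1.card < B.1.card := Finset.card_lt_card h
  have h2 : 0 < A.1.card := A.2.1.card_pos
  show A.1.card - 1 < B.1.card - 1
  omega

theorem sz_ne {A B : Sub} (h : A ≠ B) (hc : A ≤ B ∨ B ≤ A) : sz A ≠ sz B := by
  rcases hc with hc | hc
  · exact (sz_lt (lt_of_le_of_ne hc h)).ne
  · exact (sz_lt (lt_of_le_of_ne hc (Ne.symm h))).ne'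

/-- A finite set with thirty involutions, one for each proper non-empty subset of the set of
colours, such that the involutions of nested subsets commute, together with four binary
coordinates, the involution of `A` changing exactly the coordinate of index `|A|`. -/
structure Mirror where
  /-- the underlying set -/
  V : Type
  fin : Finite V
  /-- the involutions -/
  fl : Sub → V → V
  /-- the binary coordinates -/
  β : V → Fin 4 → Bool
  fl_fl : ∀ A v, fl A (fl A v) = v
  comm : ∀ A B v, A < B → fl A (fl B v) = fl B (fl A v)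
  beta : ∀ A v k, β (fl A v) k = if k = sz A then !β v k else β v k

namespace Mirror

variable (M : Mirror)

/-- `w` is obtained from `v` by one of the involutions belonging to `τ`. -/
def Adj (τ : Finset Sub) (v w : M.V) : Prop := ∃ A ∈ τ, w = M.fl A v

/-- The orbit of `v` under the involutions belonging to `τ`. -/
def orbit (τ : Finset Sub) (v : M.V) : Set M.V := {w | Relation.ReflTransGen (M.Adj τ) v w}

variable {M}

theorem mem_orbit_self (τ : Finset Sub) (v : M.V) : v ∈ M.orbit τ v := Relation.ReflTransGen.refl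

theorem Adj.symm {τ : Finset Sub} {v w : M.V} (h : M.Adj τ v w) : M.Adj τ w v := by
  obtain ⟨A, hA, rfl⟩ := h
  exact ⟨A, hA, (M.fl_fl A v).symm⟩

theorem orbit_symm {τ : Finset Sub} {v w : M.V} (h : w ∈ M.orbit τ v) : v ∈ M.orbit τ w := by
  induction h with
  | refl => exact Relation.ReflTransGen.refl
  | tail _ h2 ih => exact Relation.ReflTransGen.head h2.symm ih

theorem orbit_trans {τ : Finset Sub} {v w x : M.V} (h : w ∈ M.orbit τ v)
    (h2 : x ∈ M.orbit τ w) : x ∈ M.orbit τ v := Relation.ReflTransGen.trans h h2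

theorem orbit_eq {τ : Finset Sub} {v w : M.V} (h : w ∈ M.orbit τ v) :
    M.orbit τ w = M.orbit τ v := by
  ext x
  exact ⟨fun hx => orbit_trans h hx, fun hx => orbit_trans (orbit_symm h) hx⟩

theorem orbit_mono {τ τ' : Finset Sub} (h : τ ⊆ τ') (v : M.V) : M.orbit τ v ⊆ M.orbit τ' v := by
  intro w hw
  induction hw with
  | refl => exact Relation.ReflTransGen.refl
  | tail _ h2 ih =>
    obtain ⟨A, hA, rfl⟩ := h2
    exact ih.tail ⟨A, h hA, rfl⟩

theorem fl_mem_orbit {τ : Finset Sub} {A : Sub} (hA : A ∈ τ) {v w : M.V} (h : w ∈ M.orbit τ v) :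
    M.fl A w ∈ M.orbit τ v := Relation.ReflTransGen.tail h ⟨A, hA, rfl⟩

theorem orbit_fl {τ : Finset Sub} {A : Sub} (hA : A ∈ τ) (v : M.V) :
    M.orbit τ (M.fl A v) = M.orbit τ v := orbit_eq (fl_mem_orbit hA (mem_orbit_self τ v))

theorem orbit_empty (v : M.V) : M.orbit ∅ v = {v} := by
  ext w
  constructor
  · intro h
    induction h with
    | refl => rfl
    | tail _ h2 _ => obtain ⟨A, hA, _⟩ := h2; simp at hA
  · rintro rfl; exact mem_orbit_self _ _

/-- coordinates not touched by `τ` are constant on orbits -/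
theorem beta_orbit {τ : Finset Sub} {v w : M.V} (h : w ∈ M.orbit τ v) {k : Fin 4}
    (hk : ∀ A ∈ τ, sz A ≠ k) : M.β w k = M.β v k := by
  induction h with
  | refl => rfl
  | tail _ h2 ih =>
    obtain ⟨A, hA, rfl⟩ := h2
    rw [M.beta, if_neg (fun e => hk A hA e.symm), ih]

theorem orbit_insert {τ : Finset Sub} {B : Sub} (hc : ∀ A ∈ τ, A < B ∨ B < A) {v w : M.V}
    (h : w ∈ M.orbit (insert B τ) v) : w ∈ M.orbit τ v ∨ w ∈ M.orbit τ (M.fl B v) := by
  have hcomm : ∀ A ∈ τ, ∀ x, M.fl B (M.fl A x) = M.fl A (M.fl B x) := by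
    intro A hA x
    rcases hc A hA with h | h
    · exact (M.comm A B x h).symm
    · exact M.comm B A x h
  have key : ∀ x y, y ∈ M.orbit τ x → M.fl B y ∈ M.orbit τ (M.fl B x) := by
    intro x y hy
    induction hy with
    | refl => exact mem_orbit_self _ _
    | tail _ h2 ih =>
      obtain ⟨A, hA, rfl⟩ := h2
      rw [hcomm A hA]
      exact fl_mem_orbit hA ih
  induction h with
  | refl => left; exact mem_orbit_self _ _
  | tail _ h2 ih =>
    obtain ⟨A, hA, rfl⟩ := h2
    rw [Finset.mem_insert] at hA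
    rcases hA with rfl | hA
    · rcases ih with ih | ih
      · right; exact key _ _ ih
      · left
        have := key _ _ ih
        rwa [M.fl_fl] at this
    · rcases ih with ih | ih
      · left; exact fl_mem_orbit hA ih
      · right; exact fl_mem_orbit hA ih

theorem chain_insert {τ : Finset Sub} {B : Sub} (hB : B ∉ τ)
    (hc : IsChain (· ≤ ·) ((insert B τ : Finset Sub) : Set Sub)) :
    ∀ A ∈ τ, A < B ∨ B < A := by
  intro A hA
  have hne : A ≠ B := fun e => hB (e ▸ hA)
  rcases hc (Finset.mem_coe.2 (Finset.mem_insert_of_mem hA))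
    (Finset.mem_coe.2 (Finset.mem_insert_self B τ)) hne with h | h
  · left; exact lt_of_le_of_ne h hne
  · right; exact lt_of_le_of_ne h (Ne.symm hne)

/-- An element of an orbit is determined by its coordinates. -/
theorem orbit_inj {τ : Finset Sub} (hc : IsChain (· ≤ ·) (τ : Set Sub)) {v w : M.V}
    (h : w ∈ M.orbit τ v) (hb : ∀ A ∈ τ, M.β w (sz A) = M.β v (sz A)) : w = v := by
  induction τ using Finset.induction_on generalizing v w with
  | empty => rw [orbit_empty] at h; exact h
  | insert B τ hB ih =>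
    have hc' := chain_insert hB hc
    have hsub : IsChain (· ≤ ·) (τ : Set Sub) := hc.mono (by
      intro x hx; exact Finset.mem_coe.2 (Finset.mem_insert_of_mem hx))
    have hszne : ∀ A ∈ τ, sz A ≠ sz B := by
      intro A hA
      rcases hc' A hA with h | h
      · exact (sz_lt h).ne
      · exact (sz_lt h).ne'
    rcases orbit_insert hc' h with h1 | h1
    · exact ih hsub h1 (fun A hA => hb A (Finset.mem_insert_of_mem hA))
    · exfalso
      have e1 := beta_orbit h1 hszne
      rw [M.beta, if_pos rfl, hb B (Finset.mem_insert_self B τ)] at e1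
      cases hx : M.β v (sz B) <;> simp [hx] at e1

/-- All values of the coordinates occur in an orbit. -/
theorem orbit_surj {τ : Finset Sub} (hc : IsChain (· ≤ ·) (τ : Set Sub)) (v : M.V)
    (b : Sub → Bool) : ∃ w ∈ M.orbit τ v, ∀ A ∈ τ, M.β w (sz A) = b A := by
  induction τ using Finset.induction_on with
  | empty => exact ⟨v, mem_orbit_self _ _, by simp⟩
  | insert B τ hB ih =>
    have hc' := chain_insert hB hc
    have hsub : IsChain (· ≤ ·) (τ : Set Sub) := hc.mono (by
      intro x hx; exact Finset.mem_coe.2 (Finset.mem_insert_of_mem hx))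
    have hszne : ∀ A ∈ τ, sz A ≠ sz B := by
      intro A hA
      rcases hc' A hA with h | h
      · exact (sz_lt h).ne
      · exact (sz_lt h).ne'
    obtain ⟨w, hw, hw2⟩ := ih hsub
    have hw' := orbit_mono (Finset.subset_insert B τ) v hw
    by_cases hbB : M.β w (sz B) = b B
    · refine ⟨w, hw', ?_⟩
      intro A hA
      rcases Finset.mem_insert.1 hA with rfl | hA
      · exact hbB
      · exact hw2 A hA
    · refine ⟨M.fl B w, fl_mem_orbit (Finset.mem_insert_self B τ) hw', ?_⟩
      intro A hA
      rcases Finset.mem_insert.1 hA with rfl | hA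
      · rw [M.beta, if_pos rfl]
        cases hx : M.β w (sz A) <;> cases hy : b A <;> simp_all
      · rw [M.beta, if_neg (hszne A hA)]
        exact hw2 A hA

end Mirror

/-- The cells of the cube complex of a mirror structure: a cell of dimension `|τ|` is given by a
chain `τ` of proper non-empty subsets and an orbit of the (commuting) involutions belonging to the
elements of `τ`. -/
@[ext]
structure Cell (M : Mirror) where
  /-- the chain of subsets -/
  τ : Finset Sub
  /-- the set of vertices of the cell -/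
  s : Set M.V
  chain : IsChain (· ≤ ·) (τ : Set Sub)
  orb : ∃ v, s = M.orbit τ v

namespace Cell

variable {M : Mirror}

/-- The cells are ordered by inclusion of their vertex sets and chains. -/
instance : PartialOrder (Cell M) where
  le x y := x.τ ⊆ y.τ ∧ x.s ⊆ y.s
  le_refl x := ⟨le_rfl, le_rfl⟩
  le_trans x y z h1 h2 := ⟨h1.1.trans h2.1, h1.2.trans h2.2⟩
  le_antisymm x y h1 h2 := Cell.ext (h1.1.antisymm h2.1) (h1.2.antisymm h2.2)

theorem le_def {x y : Cell M} : x ≤ y ↔ x.τ ⊆ y.τ ∧ x.s ⊆ y.s := Iff.rfl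

instance : Finite (Cell M) := by
  have := M.fin
  let f : Cell M → Finset Sub × Set M.V := fun x => (x.τ, x.s)
  have hf : Function.Injective f := by
    intro x y h
    simp only [f, Prod.mk.injEq] at h
    exact Cell.ext h.1 h.2
  exact Finite.of_injective f hf

/-- the cell of `τ` containing the vertex `v` -/
def mk' (τ : Finset Sub) (hc : IsChain (· ≤ ·) (τ : Set Sub)) (v : M.V) : Cell M :=
  ⟨τ, M.orbit τ v, hc, v, rfl⟩

theorem nonempty (x : Cell M) : x.s.Nonempty := by
  obtain ⟨v, hv⟩ := x.orb
  rw [hv]; exact ⟨v, Mirror.mem_orbit_self _ _⟩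

theorem s_eq {x : Cell M} {v : M.V} (h : v ∈ x.s) : x.s = M.orbit x.τ v := by
  obtain ⟨w, hw⟩ := x.orb
  rw [hw] at h ⊢
  exact (Mirror.orbit_eq h).symm

theorem le_iff {x y : Cell M} {v : M.V} (hx : v ∈ x.s) (hy : v ∈ y.s) : x ≤ y ↔ x.τ ⊆ y.τ := by
  constructor
  · exact fun h => h.1
  · intro h
    refine ⟨h, ?_⟩
    rw [s_eq hx, s_eq hy]
    exact Mirror.orbit_mono h v

theorem lt_tau {x y : Cell M} (h : x < y) : x.τ ⊂ y.τ := by
  obtain ⟨v, hv⟩ := x.nonempty
  have hy : v ∈ y.s := h.le.2 hv
  refine lt_of_le_of_ne h.le.1 (fun e => ?_)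
  have : y ≤ x := (le_iff hy hv).2 (e ▸ le_rfl)
  exact absurd this (not_le_of_gt h)

end Cell

/-- The face poset of an interval: two vertices and the interval itself. -/
inductive Face1
  | zero | one | full
  deriving DecidableEq

instance : PartialOrder Face1 where
  le a b := a = b ∨ b = Face1.full
  le_refl a := Or.inl rfl
  le_trans a b c h1 h2 := by
    rcases h1 with rfl | rfl
    · exact h2
    · rcases h2 with rfl | rfl
      · right; rfl
      · right; rfl
  le_antisymm a b h1 h2 := by
    rcases h1 with rfl | rfl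
    · rfl
    · rcases h2 with rfl | rfl <;> rfl

theorem Face1.le_def {a b : Face1} : a ≤ b ↔ a = b ∨ b = Face1.full := Iff.rfl

/-- The poset is the poset of all non-empty faces of a cube (of some dimension). -/
def IsCubeFacePoset (P : Type) [PartialOrder P] : Prop :=
  ∃ (k : ℕ), Nonempty (P ≃o (Fin k → Face1))

/-- The poset of all non-empty chains of proper non-empty subsets of a five element set, i.e. the
face poset of the barycentric subdivision of the boundary of the 4-simplex (a 3-sphere). -/
abbrev SdBoundaryFaces := {τ : Finset Sub // τ.Nonempty ∧ IsChain (· ≤ ·) (τ : Set Sub)}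

/-- `P` is the face poset of a closed 4-dimensional cubical manifold (each vertex link being the
barycentric subdivision of the boundary of the 4-simplex). -/
structure IsClosedCubical4Manifold (P : Type) [PartialOrder P] : Prop where
  finite : Finite P
  cubes : ∀ x : P, IsCubeFacePoset (Set.Iic x)
  links : ∀ v : P, IsMin v → Nonempty (Set.Ioi v ≃o SdBoundaryFaces)

open Classical in
theorem Cell.cube {M : Mirror} (x : Cell M) : Nonempty (Set.Iic x ≃o (↥x.τ → Face1)) := by
  let f : Set.Iic x → (↥x.τ → Face1) := fun y A =>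
    if A.1 ∈ y.1.τ then Face1.full
    else if M.β y.1.nonempty.choose (sz A.1) then Face1.one else Face1.zero
  have hchain : ∀ A ∈ x.τ, ∀ B ∈ x.τ, A ≠ B → sz A ≠ sz B := by
    intro A hA B hB hne
    exact sz_ne hne (x.chain (Finset.mem_coe.2 hA) (Finset.mem_coe.2 hB) hne)
  -- value of `f` outside of the chain
  have hval : ∀ (y : Set.Iic x) (A : ↥x.τ), A.1 ∉ y.1.τ → ∀ w ∈ y.1.s,
      f y A = if M.β w (sz A.1) then Face1.one else Face1.zero := by
    intro y A hA w hw
    simp only [f, if_neg hA]
    have h1 : y.1.nonempty.choose ∈ M.orbit y.1.τ w := by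
      rw [← Cell.s_eq hw]; exact y.1.nonempty.choose_spec
    have := Mirror.beta_orbit h1 (k := sz A.1) (by
      intro B hB
      exact hchain B (y.2.1 hB) A.1 A.2 (fun e => hA (e ▸ hB)))
    rw [this]
  have hfull : ∀ (y : Set.Iic x) (A : ↥x.τ), A.1 ∈ y.1.τ → f y A = Face1.full := by
    intro y A hA; simp only [f, if_pos hA]
  have hnfull : ∀ (y : Set.Iic x) (A : ↥x.τ), A.1 ∉ y.1.τ → f y A ≠ Face1.full := by
    intro y A hA h
    obtain ⟨w, hw⟩ := y.1.nonempty
    rw [hval y A hA w hw] at h
    split_ifs at h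
  have hle : ∀ y y' : Set.Iic x, f y ≤ f y' ↔ y ≤ y' := by
    intro y y'
    constructor
    · intro h
      have hsub : y.1.τ ⊆ y'.1.τ := by
        intro A hA
        by_contra hA'
        have := h ⟨A, y.2.1 hA⟩
        rw [hfull y ⟨A, _⟩ hA] at this
        rcases this with e | e
        · exact hnfull y' ⟨A, _⟩ hA' e.symm
        · exact hnfull y' ⟨A, _⟩ hA' e
      obtain ⟨w, hw⟩ := y.1.nonempty
      obtain ⟨w', hw'⟩ := y'.1.nonempty
      have hwx : w ∈ x.s := y.2.2 hw
      have hwx' : w' ∈ x.s := y'.2.2 hw'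
      obtain ⟨w'', hw'', hb⟩ := Mirror.orbit_surj y'.1.chain w' (fun A => M.β w (sz A))
      have hw''s : w'' ∈ y'.1.s := by rw [Cell.s_eq hw']; exact hw''
      have hwx'' : w'' ∈ x.s := y'.2.2 hw''s
      have heq : w = w'' := by
        apply Mirror.orbit_inj x.chain (v := w'') (w := w)
        · rw [← Cell.s_eq hwx'']; exact hwx
        · intro A hA
          by_cases hAy : A ∈ y'.1.τ
          · exact (hb A hAy).symm
          · have hAy2 : A ∉ y.1.τ := fun hh => hAy (hsub hh)
            have h3 := h ⟨A, hA⟩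
            rw [hval y ⟨A, hA⟩ hAy2 w hw, hval y' ⟨A, hA⟩ hAy w'' hw''s] at h3
            simp only [] at h3
            rcases h3 with e | e
            · cases hx1 : M.β w (sz A) <;> cases hx2 : M.β w'' (sz A) <;> simp_all
            · exfalso; revert e; split_ifs <;> simp
      have : w ∈ y'.1.s := heq ▸ hw''s
      exact (Cell.le_iff (x := y.1) (y := y'.1) hw this).2 hsub
    · intro h A
      by_cases hA : A.1 ∈ y'.1.τ
      · right; exact hfull y' A hA
      · left
        obtain ⟨w, hw⟩ := y.1.nonempty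
        have hw' : w ∈ y'.1.s := h.2 hw
        rw [hval y A (fun hh => hA (h.1 hh)) w hw, hval y' A hA w hw']
  have hsurj : Function.Surjective f := by
    intro g
    let τ' : Finset Sub := x.τ.filter (fun A => ∃ h : A ∈ x.τ, g ⟨A, h⟩ = Face1.full)
    have hτ' : τ' ⊆ x.τ := Finset.filter_subset _ _
    have hc' : IsChain (· ≤ ·) (τ' : Set Sub) := x.chain.mono (by exact_mod_cast hτ')
    obtain ⟨v, hv⟩ := x.nonempty
    obtain ⟨w, hw, hb⟩ := Mirror.orbit_surj x.chain v
      (fun A => decide (∃ h : A ∈ x.τ, g ⟨A, h⟩ = Face1.one))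
    have hwx : w ∈ x.s := by rw [Cell.s_eq hv]; exact hw
    have hw2 : w ∈ (Cell.mk' τ' hc' w).s := Mirror.mem_orbit_self _ _
    refine ⟨⟨Cell.mk' τ' hc' w, (Cell.le_iff hw2 hwx).2 hτ'⟩, ?_⟩
    funext A
    by_cases hA : A.1 ∈ τ'
    · rw [hfull _ A hA]
      obtain ⟨_, _, h2⟩ := Finset.mem_filter.1 hA
      exact h2.symm
    · rw [hval _ A hA w hw2, hb A.1 A.2]
      have hnf : g A ≠ Face1.full := fun e => hA (Finset.mem_filter.2 ⟨A.2, A.2, e⟩)
      rcases hgA : g A with _ | _ | _
      · have : ¬ ∃ h : A.1 ∈ x.τ, g ⟨A.1, h⟩ = Face1.one := by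
          rintro ⟨_, h⟩
          rw [show (⟨A.1, _⟩ : ↥x.τ) = A from rfl, hgA] at h
          cases h
        rw [decide_eq_false this]; rfl
      · have : ∃ h : A.1 ∈ x.τ, g ⟨A.1, h⟩ = Face1.one := ⟨A.2, hgA⟩
        rw [decide_eq_true this]; rfl
      · exact absurd hgA hnf
  have hinj : Function.Injective f := by
    intro y y' h
    exact le_antisymm ((hle y y').1 h.le) ((hle y' y).1 h.ge)
  exact ⟨{ toEquiv := Equiv.ofBijective f ⟨hinj, hsurj⟩, map_rel_iff' := hle _ _ }⟩

theorem Cell.isCube {M : Mirror} (x : Cell M) : IsCubeFacePoset (Set.Iic x) := by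
  obtain ⟨e⟩ := x.cube
  refine ⟨Fintype.card ↥x.τ, ⟨e.trans ?_⟩⟩
  exact
    { toEquiv := (Fintype.equivFin ↥x.τ).arrowCongr (Equiv.refl Face1)
      map_rel_iff' := by
        intro a b
        constructor
        · intro h A
          have := h (Fintype.equivFin ↥x.τ A)
          simpa using this
        · intro h k
          exact h _ }

theorem Cell.isMin_tau {M : Mirror} {x : Cell M} (hx : IsMin x) : x.τ = ∅ := by
  obtain ⟨v, hv⟩ := x.nonempty
  have hc : IsChain (· ≤ ·) ((∅ : Finset Sub) : Set Sub) := by simp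
  have h1 : v ∈ (Cell.mk' ∅ hc v : Cell M).s := Mirror.mem_orbit_self _ _
  have h2 : (Cell.mk' ∅ hc v : Cell M) ≤ x := (Cell.le_iff h1 hv).2 (Finset.empty_subset _)
  have := hx h2
  exact Finset.subset_empty.1 this.1

theorem Cell.link {M : Mirror} (x : Cell M) (hx : IsMin x) :
    Nonempty (Set.Ioi x ≃o SdBoundaryFaces) := by
  have hτ := Cell.isMin_tau hx
  obtain ⟨v, hv⟩ := x.nonempty
  let f : Set.Ioi x → SdBoundaryFaces := fun y =>
    ⟨y.1.τ, by
      have := (Cell.lt_tau y.2)
      rw [hτ] at this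
      exact Finset.nonempty_iff_ne_empty.2 (fun e => by rw [e] at this; exact absurd this (by simp)),
      y.1.chain⟩
  have hmem : ∀ y : Set.Ioi x, v ∈ y.1.s := fun y => (show x < y.1 from y.2).le.2 hv
  have hle : ∀ y y' : Set.Ioi x, f y ≤ f y' ↔ y ≤ y' := by
    intro y y'
    exact (Cell.le_iff (x := y.1) (y := y'.1) (hmem y) (hmem y')).symm
  have hinj : Function.Injective f := by
    intro y y' h
    exact le_antisymm ((hle y y').1 h.le) ((hle y' y).1 h.ge)
  have hsurj : Function.Surjective f := by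
    rintro ⟨τ, hne, hc⟩
    have h1 : v ∈ (Cell.mk' τ hc v : Cell M).s := Mirror.mem_orbit_self _ _
    refine ⟨⟨Cell.mk' τ hc v, ?_⟩, rfl⟩
    refine lt_of_le_of_ne ((Cell.le_iff hv h1).2 (by rw [hτ]; exact Finset.empty_subset _)) ?_
    intro e
    have : x.τ = τ := by rw [e]; rfl
    rw [hτ] at this
    exact absurd this.symm hne.ne_empty
  exact ⟨{ toEquiv := Equiv.ofBijective f ⟨hinj, hsurj⟩, map_rel_iff' := hle _ _ }⟩

/-- The cells of a mirror structure form a closed cubical 4-manifold. -/
theorem Cell.manifold (M : Mirror) : IsClosedCubical4Manifold (Cell M) :=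
  ⟨inferInstance, Cell.isCube, Cell.link⟩

end Pool.Agent.FC640
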