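import Pool.Agent.FC640.Fund

/-!
# Resolution of a labelled 4-cycle by a closed manifold
-/

namespace Pool.Agent.FC640

open Finset

/-- A labelled 4-cycle: finitely many signed 4-simplices `u` with vertices `0, …, 4`, the edge from
the vertex `p` to the vertex `q` carrying a group element, together with a pairing of the facets:
`phi i` pairs the facets opposite to the vertices `i` of simplices of opposite signs with equal
edge labels. -/
structure LabCycle (G : Type) where
  /-- the set of simplices -/
  U : Type
  fin : Finite U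
  /-- the sign -/
  sg : U → Bool
  /-- the facet pairings -/
  phi : Fin 5 → U → U
  /-- the edge labels -/
  lab : Fin 5 → Fin 5 → U → G
  phi_phi : ∀ i u, phi i (phi i u) = u
  sg_phi : ∀ i u, sg (phi i u) = !sg u
  lab_phi : ∀ i p q u, p ≠ i → q ≠ i → lab p q (phi i u) = lab p q u

variable {G : Type}

/-- An involution of the set of simplices is good for `A` if it reverses signs and preserves the
labels of all edges without end point in `A`; for singletons `A = {i}` the given pairing is the
only one admitted. -/
structure Good (S : LabCycle G) (A : Sub) (f : S.U → S.U) : Prop where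
  inv : ∀ u, f (f u) = u
  sg : ∀ u, S.sg (f u) = !S.sg u
  lab : ∀ p q u, p ∉ A.1 → q ∉ A.1 → S.lab p q (f u) = S.lab p q u
  single : ∀ i, A.1 = {i} → f = S.phi i

/-- parity of four bits -/
def parity (β : Fin 4 → Bool) : Bool := ((β 0).xor (β 1)).xor ((β 2).xor (β 3))

/-- A state: a simplex, a good involution for every proper non-empty subset, four bits whose parity
is the sign of the simplex. -/
@[ext]
structure State (S : LabCycle G) where
  /-- the simplex -/
  u : S.U
  /-- the involutions -/
  L : Sub → S.U → S.U
  /-- the bits -/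
  β : Fin 4 → Bool
  good : ∀ A, Good S A (L A)
  par : S.sg u = parity β

variable {S : LabCycle G}

theorem parity_flip (β : Fin 4 → Bool) (j : Fin 4) :
    parity (fun k => if k = j then !β k else β k) = !parity β := by
  simp only [parity]
  generalize β 0 = b0
  generalize β 1 = b1
  generalize β 2 = b2
  generalize β 3 = b3
  revert j b0 b1 b2 b3
  decide

theorem Good.conj {A B : Sub} {f g : S.U → S.U} (hAB : A < B) (hf : Good S A f)
    (hg : Good S B g) : Good S B (fun u => f (g (f u))) := by
  have hsub : ∀ p, p ∉ B.1 → p ∉ A.1 := fun p hp hA => hp (hAB.le hA)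
  refine ⟨?_, ?_, ?_, ?_⟩
  · intro u; simp only [hf.inv, hg.inv]
  · intro u; rw [hf.sg, hg.sg, hf.sg]; simp
  · intro p q u hp hq
    rw [hf.lab p q _ (hsub p hp) (hsub q hq), hg.lab p q _ hp hq,
      hf.lab p q _ (hsub p hp) (hsub q hq)]
  · intro i hi
    exfalso
    have h1 : A.1.card < B.1.card := Finset.card_lt_card hAB
    rw [hi, Finset.card_singleton] at h1
    have := A.2.1.card_pos
    omega

open Classical in
/-- The involution of `A` on states: apply the involution `L A` to the simplex, conjugate the
involutions `L B`, `A ⊂ B`, by `L A`, and change the bit of index `|A|`. -/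
def State.fl (A : Sub) (v : State S) : State S where
  u := v.L A v.u
  L := fun B => if A < B then (fun u => v.L A (v.L B (v.L A u))) else v.L B
  β := fun k => if k = sz A then !v.β k else v.β k
  good := by
    intro B
    split_ifs with h
    · exact (v.good A).conj h (v.good B)
    · exact v.good B
  par := by
    rw [parity_flip, (v.good A).sg, v.par]

open Classical in
theorem State.fl_L (A B : Sub) (v : State S) :
    (v.fl A).L B = if A < B then (fun u => v.L A (v.L B (v.L A u))) else v.L B := rfl

theorem State.fl_L_self (A : Sub) (v : State S) : (v.fl A).L A = v.L A := by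
  rw [State.fl_L, if_neg (lt_irrefl A)]

theorem State.fl_u (A : Sub) (v : State S) : (v.fl A).u = v.L A v.u := rfl

theorem State.fl_fl (A : Sub) (v : State S) : (v.fl A).fl A = v := by
  apply State.ext
  · rw [State.fl_u, State.fl_L_self, State.fl_u, (v.good A).inv]
  · funext B u
    rw [State.fl_L, State.fl_L_self]
    split_ifs with h
    · simp only [State.fl_L, if_pos h, (v.good A).inv]
    · rw [State.fl_L, if_neg h]
  · funext k
    show (if k = sz A then !(if k = sz A then !v.β k else v.β k) else
      (if k = sz A then !v.β k else v.β k)) = v.β k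
    split_ifs <;> simp

theorem State.comm (A B : Sub) (v : State S) (h : A < B) :
    (v.fl B).fl A = (v.fl A).fl B := by
  have hBA : ¬ B < A := fun h2 => lt_asymm h h2
  apply State.ext
  · rw [State.fl_u, State.fl_u, State.fl_u, State.fl_u, State.fl_L, State.fl_L, if_neg hBA,
      if_pos h, (v.good A).inv]
  · funext C u
    by_cases hBC : B < C
    · have hAC : A < C := h.trans hBC
      simp only [State.fl_L, if_neg hBA, if_pos h, if_pos hBC, if_pos hAC, (v.good A).inv]
    · by_cases hAC : A < C
      · simp only [State.fl_L, if_neg hBA, if_neg hBC, if_pos hAC]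
      · simp only [State.fl_L, if_neg hBC, if_neg hAC]
  · funext k
    show (if k = sz A then !(if k = sz B then !v.β k else v.β k) else
      (if k = sz B then !v.β k else v.β k)) =
      (if k = sz B then !(if k = sz A then !v.β k else v.β k) else
      (if k = sz A then !v.β k else v.β k))
    split_ifs <;> rfl

/-- `w` can be reached from `v` by the involutions. -/
def Reach (v w : State S) : Prop := Relation.ReflTransGen (fun a b => ∃ A, b = State.fl A a) v w

instance : Finite (State S) := by
  have := S.fin
  let f : State S → S.U × (Sub → S.U → S.U) × (Fin 4 → Bool) := fun v => (v.u, v.L, v.β)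
  have hf : Function.Injective f := by
    intro v w h
    simp only [f, Prod.mk.injEq] at h
    exact State.ext h.1 h.2.1 h.2.2
  exact Finite.of_injective f hf

/-- The mirror structure on the set of all states which can be reached from `v₀`. -/
def mirrorOf (v₀ : State S) : Mirror where
  V := {v : State S // Reach v₀ v}
  fin := inferInstance
  fl := fun A v => ⟨v.1.fl A, v.2.tail ⟨A, rfl⟩⟩
  β := fun v => v.1.β
  fl_fl := fun A v => Subtype.ext (v.1.fl_fl A)
  comm := fun A B v h => Subtype.ext (State.comm A B v.1 h)
  beta := fun _ _ _ => rfl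

/-- The standard state over the simplex `u`: the involution of `A` is the facet pairing of the
smallest element of `A`. -/
def stdState (u : S.U) : State S where
  u := u
  L := fun A => S.phi (A.1.min' A.2.1)
  β := fun k => if k = 0 then S.sg u else false
  good := by
    intro A
    refine ⟨S.phi_phi _, S.sg_phi _, ?_, ?_⟩
    · intro p q u hp hq
      apply S.lab_phi
      · intro e; exact hp (e ▸ A.1.min'_mem A.2.1)
      · intro e; exact hq (e ▸ A.1.min'_mem A.2.1)
    · intro i hi
      have h2 : ∀ a ∈ A.1, a = i := by rw [hi]; simp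
      have : A.1.min' A.2.1 = i := h2 _ (A.1.min'_mem A.2.1)
      rw [this]
  par := by simp [parity]

/-- The closed manifold resolving the labelled cycle, as a poset of cells. -/
abbrev Resolution (v₀ : State S) : Type := Cell (mirrorOf v₀)

theorem fl_surj_reach {v₀ v : State S} (h : Reach v₀ v) : Reach v v₀ := by
  induction h with
  | refl => exact Relation.ReflTransGen.refl
  | tail _ h2 ih =>
    obtain ⟨A, rfl⟩ := h2
    exact Relation.ReflTransGen.head ⟨A, (State.fl_fl A _).symm⟩ ih

/-- Connectedness of a poset: any two points are joined by a sequence of comparable points. -/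
def PosetConnected (P : Type) [PartialOrder P] : Prop :=
  ∀ x y : P, Relation.ReflTransGen (fun a b => a ≤ b ∨ b ≤ a) x y

theorem resolution_connected (v₀ : State S) : PosetConnected (Resolution v₀) := by
  have hc0 : IsChain (· ≤ ·) ((∅ : Finset Sub) : Set Sub) := by simp
  let b : Resolution v₀ := Cell.mk' ∅ hc0 ⟨v₀, Relation.ReflTransGen.refl⟩
  -- every vertex is connected to the base vertex
  have h1 : ∀ (v : State S) (hv : Reach v₀ v), Relation.ReflTransGen
      (fun a b : Resolution v₀ => a ≤ b ∨ b ≤ a) b (Cell.mk' ∅ hc0 ⟨v, hv⟩) := by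
    intro v hv
    induction hv with
    | refl => exact Relation.ReflTransGen.refl
    | @tail v w hv hvw ih =>
      obtain ⟨A, rfl⟩ := hvw
      have hcA : IsChain (· ≤ ·) (({A} : Finset Sub) : Set Sub) := by simp
      let v' : (mirrorOf v₀).V := ⟨v, hv⟩
      let c : Resolution v₀ := Cell.mk' {A} hcA v'
      have m1 : v' ∈ c.s := Mirror.mem_orbit_self _ _
      have m2 : (mirrorOf v₀).fl A v' ∈ c.s :=
        Mirror.fl_mem_orbit (Finset.mem_singleton_self A) m1
      have l1 : (Cell.mk' ∅ hc0 v' : Resolution v₀) ≤ c :=
        (Cell.le_iff (Mirror.mem_orbit_self _ _) m1).2 (Finset.empty_subset _)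
      have l2 : (Cell.mk' ∅ hc0 ((mirrorOf v₀).fl A v') : Resolution v₀) ≤ c :=
        (Cell.le_iff (Mirror.mem_orbit_self _ _) m2).2 (Finset.empty_subset _)
      exact (ih.tail (Or.inl l1)).tail (Or.inr l2)
  have h2 : ∀ x : Resolution v₀, Relation.ReflTransGen
      (fun a b : Resolution v₀ => a ≤ b ∨ b ≤ a) b x := by
    intro x
    obtain ⟨v, hv⟩ := x.nonempty
    refine (h1 v.1 v.2).tail (Or.inl ?_)
    exact (Cell.le_iff (Mirror.mem_orbit_self _ _) hv).2 (Finset.empty_subset _)
  have hsymm : ∀ x y : Resolution v₀, Relation.ReflTransGen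
      (fun a b : Resolution v₀ => a ≤ b ∨ b ≤ a) x y → Relation.ReflTransGen
      (fun a b : Resolution v₀ => a ≤ b ∨ b ≤ a) y x := by
    intro x y h
    induction h with
    | refl => exact Relation.ReflTransGen.refl
    | tail _ h2 ih => exact Relation.ReflTransGen.head h2.symm ih
  intro x y
  exact (hsymm _ _ (h2 x)).trans (h2 y)

/-! ### The colour of a cell and the labels -/

/-- the union of the subsets of a chain -/
def unionOf (τ : Finset Sub) : Finset (Fin 5) := τ.sup (fun A => A.1)

theorem mem_unionOf {τ : Finset Sub} {a : Fin 5} : a ∈ unionOf τ ↔ ∃ A ∈ τ, a ∈ A.1 := by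
  unfold unionOf; rw [Finset.mem_sup]

theorem unionOf_ne_univ {τ : Finset Sub} (h : IsChain (· ≤ ·) (τ : Set Sub)) :
    (Finset.univ \ unionOf τ).Nonempty := by
  rcases τ.eq_empty_or_nonempty with rfl | hne
  · exact ⟨0, by simp [unionOf]⟩
  · obtain ⟨A, hA, hmax⟩ := τ.exists_maximal hne
    have hle : ∀ B ∈ τ, B ≤ A := by
      intro B hB
      rcases eq_or_ne B A with rfl | hne2
      · exact le_rfl
      · rcases h (Finset.mem_coe.2 hB) (Finset.mem_coe.2 hA) hne2 with h1 | h1
        · exact h1
        · exact hmax hB h1
    obtain ⟨a, ha⟩ : ∃ a, a ∉ A.1 := by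
      by_contra hcon
      push Not at hcon
      exact A.2.2 (Finset.eq_univ_iff_forall.2 hcon)
    refine ⟨a, ?_⟩
    rw [Finset.mem_sdiff, mem_unionOf]
    refine ⟨Finset.mem_univ _, ?_⟩
    rintro ⟨B, hB, haB⟩
    exact ha (hle B hB haB)

/-- The colour of a chain: the smallest colour contained in none of its elements. -/
def kap (τ : Finset Sub) : Fin 5 :=
  if h : (Finset.univ \ unionOf τ).Nonempty then (Finset.univ \ unionOf τ).min' h else 0

theorem kap_notMem {τ : Finset Sub} (h : IsChain (· ≤ ·) (τ : Set Sub)) {A : Sub}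
    (hA : A ∈ τ) : kap τ ∉ A.1 := by
  unfold kap
  rw [dif_pos (unionOf_ne_univ h)]
  have := Finset.min'_mem _ (unionOf_ne_univ h)
  rw [Finset.mem_sdiff, mem_unionOf] at this
  intro hc
  exact this.2 ⟨A, hA, hc⟩

theorem kap_mono {τ τ' : Finset Sub} (h' : IsChain (· ≤ ·) (τ' : Set Sub)) (hs : τ ⊆ τ') :
    kap τ ≤ kap τ' := by
  have h : IsChain (· ≤ ·) (τ : Set Sub) := h'.mono (by exact_mod_cast hs)
  unfold kap
  rw [dif_pos (unionOf_ne_univ h), dif_pos (unionOf_ne_univ h')]
  apply Finset.min'_subset
  intro a ha
  rw [Finset.mem_sdiff, mem_unionOf] at ha ⊢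
  refine ⟨ha.1, ?_⟩
  rintro ⟨A, hA, haA⟩
  exact ha.2 ⟨A, hs hA, haA⟩

theorem kap_empty : kap ∅ = 0 := by decide

variable {v₀ : State S}

theorem lab_orbit {τ : Finset Sub} {v w : (mirrorOf v₀).V} (h : w ∈ (mirrorOf v₀).orbit τ v)
    {p q : Fin 5} (hp : ∀ A ∈ τ, p ∉ A.1) (hq : ∀ A ∈ τ, q ∉ A.1) :
    S.lab p q w.1.u = S.lab p q v.1.u := by
  induction h with
  | refl => rfl
  | @tail w x _ h2 ih =>
    obtain ⟨A, hA, rfl⟩ := h2
    show S.lab p q (w.1.L A w.1.u) = _
    rw [(w.1.good A).lab p q _ (hp A hA) (hq A hA), ih]

/-- the colour of a cell -/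
def Cell.col (x : Resolution v₀) : Fin 5 := kap x.τ

/-- The label of a pair of cells `x ≤ y`: the label of the edge of the colours of `x` and `y` in
(any of) the simplices of the vertices of `x`. -/
noncomputable def resLab (x y : Resolution v₀) : G :=
  S.lab x.col y.col (x.nonempty.choose).1.u

theorem resLab_eq {x y : Resolution v₀} (h : x ≤ y) {v : (mirrorOf v₀).V} (hv : v ∈ x.s) :
    resLab x y = S.lab x.col y.col v.1.u := by
  unfold resLab
  have h1 : x.nonempty.choose ∈ (mirrorOf v₀).orbit x.τ v := by
    rw [← Cell.s_eq hv]; exact x.nonempty.choose_spec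
  exact lab_orbit h1 (fun A hA => kap_notMem x.chain hA)
    (fun A hA => kap_notMem y.chain (h.1 hA))

end Pool.Agent.FC640
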