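import Pool.Agent.FC640.Build

/-!
# Flat circle bundles over posets and their Euler class

The notions used in the statement of the result.
-/

namespace Pool.Agent.FC640

open Finset

/-- A flat circle bundle with smooth holonomy over the order complex of the poset `P`: an
orientation preserving smooth diffeomorphism of the circle `ℝ / ℤ` for every pair `x ≤ y` (from
the fibre over `x` to the fibre over `y`), multiplicative for `x ≤ y ≤ z`.  The edges `x < y` of
the order complex generate its edge path groupoid, and the relations are those of the triangles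
`x < y < z`, so this is the same as a homomorphism from the edge path groupoid, and, for connected
`P`, the same (up to the choice of trivialisations) as a homomorphism from the fundamental group
to the group of orientation preserving smooth diffeomorphisms of the circle. -/
structure FlatCircleBundle (P : Type) [PartialOrder P] where
  /-- the holonomy -/
  hol : P → P → Equiv.Perm (AddCircle (1 : ℝ))
  smooth : ∀ x y, x ≤ y → IsDiffS1 (hol x y)
  flat : ∀ x y z, x ≤ y → y ≤ z → hol y z * hol x y = hol x z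

variable {P : Type} [PartialOrder P]

/-- `e` is an Euler cochain of the bundle: for some choice of lifts `l x y` of the holonomy
diffeomorphisms to the real line, `e x y z` measures the failure of multiplicativity,
`l y z ∘ l x y = l x z + e x y z`. -/
def IsEulerCochain (B : FlatCircleBundle P) (e : P → P → P → ℤ) : Prop :=
  ∃ l : P → P → Lifts,
    (∀ x y, x < y → ∀ t : ℝ, B.hol x y (t : AddCircle (1 : ℝ)) =
      (((l x y : Equiv.Perm ℝ) t : ℝ) : AddCircle (1 : ℝ))) ∧
    ∀ x y z, x < y → y < z → l y z * l x y = tr ^ (e x y z) * l x z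

/-- The (Alexander-Whitney) cup product of two 2-cochains on a 4-simplex of the order complex. -/
def cup22 (e e' : P → P → P → ℤ) (x : Fin 5 → P) : ℤ :=
  e (x 0) (x 1) (x 2) * e' (x 2) (x 3) (x 4)

/-- The square of the Euler class of the bundle is non-zero in the fourth cohomology group with
integer coefficients of the order complex of `P`: Euler cochains exist, and for every Euler cochain
`e` the cup product of `e` with itself is not the coboundary of an integral 3-cochain. -/
def EulerSquareNeZero (B : FlatCircleBundle P) : Prop :=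
  (∃ e, IsEulerCochain B e) ∧
  ∀ e, IsEulerCochain B e →
    ¬ ∃ c : (Fin 4 → P) → ℤ, ∀ x : Fin 5 → P, StrictMono x → delta c x = cup22 e e x

/-- The order complex of `P` is oriented: there are signs on its 4-simplices such that the signed
sum of all 4-simplices is a cycle. -/
def IsOriented4 (P : Type) [PartialOrder P] : Prop :=
  ∃ o : (Fin 5 → P) → ℤ, (∀ x, StrictMono x → o x = 1 ∨ o x = -1) ∧
    ∀ c : (Fin 4 → P) → ℤ, ∑ᶠ x : {x : Fin 5 → P // StrictMono x}, o x.1 * delta c x.1 = 0

omit [PartialOrder P] in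
theorem delta_eq (c : (Fin 4 → P) → ℤ) (x : Fin 5 → P) :
    delta c x = c ![x 1, x 2, x 3, x 4] - c ![x 0, x 2, x 3, x 4] + c ![x 0, x 1, x 3, x 4] -
      c ![x 0, x 1, x 2, x 4] + c ![x 0, x 1, x 2, x 3] := by
  unfold delta
  rw [Fin.sum_univ_five]
  have h0 : (fun i : Fin 4 => x ((0 : Fin 5).succAbove i)) = ![x 1, x 2, x 3, x 4] := by
    funext i; fin_cases i <;> rfl
  have h1 : (fun i : Fin 4 => x ((1 : Fin 5).succAbove i)) = ![x 0, x 2, x 3, x 4] := by
    funext i; fin_cases i <;> rfl
  have h2 : (fun i : Fin 4 => x ((2 : Fin 5).succAbove i)) = ![x 0, x 1, x 3, x 4] := by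
    funext i; fin_cases i <;> rfl
  have h3 : (fun i : Fin 4 => x ((3 : Fin 5).succAbove i)) = ![x 0, x 1, x 2, x 4] := by
    funext i; fin_cases i <;> rfl
  have h4 : (fun i : Fin 4 => x ((4 : Fin 5).succAbove i)) = ![x 0, x 1, x 2, x 3] := by
    funext i; fin_cases i <;> rfl
  rw [h0, h1, h2, h3, h4]
  simp only [Fin.val_zero, Fin.val_one, Fin.val_two]
  have e3 : ((3 : Fin 5) : ℕ) = 3 := rfl
  have e4 : ((4 : Fin 5) : ℕ) = 4 := rfl
  rw [e3, e4]
  ring

theorem tr_comm (n : ℤ) (f : Lifts) : f * tr ^ n = tr ^ n * f := by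
  apply Subtype.ext
  apply Equiv.ext
  intro t
  simp only [Subgroup.coe_mul, Equiv.Perm.mul_apply, tr_zpow_apply]
  exact lift_add_int f t n

/-- Two lifts of the same circle map differ by an integral translation. -/
theorem lifts_eq {f g : Lifts} (h : ∀ t : ℝ, (((f : Equiv.Perm ℝ) t : ℝ) : AddCircle (1 : ℝ)) =
    (((g : Equiv.Perm ℝ) t : ℝ) : AddCircle (1 : ℝ))) : ∃ n : ℤ, f = tr ^ n * g := by
  have hint : ∀ t : ℝ, ∃ n : ℤ, (f : Equiv.Perm ℝ) t - (g : Equiv.Perm ℝ) t = n := by
    intro t
    have h1 : (((f : Equiv.Perm ℝ) t - (g : Equiv.Perm ℝ) t : ℝ) : AddCircle (1 : ℝ)) = 0 := by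
      rw [AddCircle.coe_sub, h t, sub_self]
    rw [AddCircle.coe_eq_zero_iff] at h1
    obtain ⟨n, hn⟩ := h1
    exact ⟨n, by rw [← hn]; simp⟩
  have hcont : Continuous fun t => (f : Equiv.Perm ℝ) t - (g : Equiv.Perm ℝ) t :=
    f.2.1.continuous.sub g.2.1.continuous
  obtain ⟨n, hn⟩ := hint 0
  refine ⟨n, ?_⟩
  apply Subtype.ext
  apply Equiv.ext
  intro t
  rw [Subgroup.coe_mul, Equiv.Perm.mul_apply, tr_zpow_apply]
  obtain ⟨m, hm⟩ := hint t
  have hmn : m = n := by
    by_contra hne
    rcases lt_or_gt_of_ne hne with hlt | hgt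
    · have h1 : (m : ℝ) + 1 ≤ n := by exact_mod_cast hlt
      obtain ⟨s, hs⟩ := mem_range_of_exists_le_of_exists_ge hcont
        (c := (m : ℝ) + 1 / 2) ⟨t, by rw [hm]; linarith⟩
        ⟨0, by rw [hn]; linarith⟩
      obtain ⟨k, hk⟩ := hint s
      have hs := hk.symm.trans hs
      have h2 : ((2 * k : ℤ) : ℝ) = ((2 * m + 1 : ℤ) : ℝ) := by push_cast; linarith
      have h3 : 2 * k = 2 * m + 1 := by exact_mod_cast h2
      omega
    · have h1 : (n : ℝ) + 1 ≤ m := by exact_mod_cast hgt
      obtain ⟨s, hs⟩ := mem_range_of_exists_le_of_exists_ge hcont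
        (c := (n : ℝ) + 1 / 2) ⟨0, by rw [hn]; linarith⟩
        ⟨t, by rw [hm]; linarith⟩
      obtain ⟨k, hk⟩ := hint s
      have hs := hk.symm.trans hs
      have h2 : ((2 * k : ℤ) : ℝ) = ((2 * n + 1 : ℤ) : ℝ) := by push_cast; linarith
      have h3 : 2 * k = 2 * n + 1 := by exact_mod_cast h2
      omega
  rw [hmn] at hm
  linarith

/-- Euler cochains are cocycles. -/
theorem euler_cocycle {l : P → P → Lifts} {e : P → P → P → ℤ}
    (h : ∀ x y z, x < y → y < z → l y z * l x y = tr ^ (e x y z) * l x z)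
    {w x y z : P} (hwx : w < x) (hxy : x < y) (hyz : y < z) :
    e x y z + e w x z = e w x y + e w y z := by
  have h1 : l y z * l x y * l w x = tr ^ (e x y z + e w x z) * l w z := by
    rw [h x y z hxy hyz, mul_assoc, h w x z hwx (hxy.trans hyz), ← mul_assoc, zpow_add]
  have h2 : l y z * l x y * l w x = tr ^ (e w x y + e w y z) * l w z := by
    rw [mul_assoc, h w x y hwx hxy, ← mul_assoc, tr_comm, mul_assoc, h w y z (hwx.trans hxy) hyz,
      ← mul_assoc, zpow_add]
  rw [h1] at h2
  exact tr_zpow_inj h2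

/-- The cohomology class of the cup square does not depend on the Euler cochain. -/
theorem euler_square_indep (B : FlatCircleBundle P) {e e' : P → P → P → ℤ}
    (h : IsEulerCochain B e) (h' : IsEulerCochain B e')
    (hc : ∃ c : (Fin 4 → P) → ℤ, ∀ x : Fin 5 → P, StrictMono x → delta c x = cup22 e' e' x) :
    ∃ c : (Fin 4 → P) → ℤ, ∀ x : Fin 5 → P, StrictMono x → delta c x = cup22 e e x := by
  classical
  obtain ⟨l, hl, he⟩ := h
  obtain ⟨l', hl', he'⟩ := h'
  obtain ⟨c, hc⟩ := hc
  have ha : ∀ x y : P, ∃ n : ℤ, x < y → l' x y = tr ^ n * l x y := by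
    intro x y
    by_cases hxy : x < y
    · obtain ⟨n, hn⟩ := lifts_eq (f := l' x y) (g := l x y)
        (fun t => by rw [← hl x y hxy t, ← hl' x y hxy t])
      exact ⟨n, fun _ => hn⟩
    · exact ⟨0, fun h => absurd h hxy⟩
  choose a ha using ha
  have hea : ∀ x y z, x < y → y < z → e' x y z = e x y z + a y z + a x y - a x z := by
    intro x y z hxy hyz
    have h1 := he' x y z hxy hyz
    rw [ha x y hxy, ha y z hyz, ha x z (hxy.trans hyz)] at h1
    have h2 : tr ^ (a y z) * l y z * (tr ^ (a x y) * l x y) =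
        tr ^ (a y z + a x y + e x y z) * l x z := by
      rw [mul_assoc, ← mul_assoc (l y z), tr_comm, mul_assoc, he x y z hxy hyz,
        ← mul_assoc (tr ^ a x y), ← zpow_add, ← mul_assoc, ← zpow_add]
      congr 2; ring
    rw [h2, ← mul_assoc, ← zpow_add] at h1
    have := tr_zpow_inj h1
    omega
  refine ⟨fun y => c y - (a (y 0) (y 1) * e' (y 1) (y 2) (y 3) +
    e (y 0) (y 1) (y 2) * a (y 2) (y 3)), ?_⟩
  intro x hx
  have h01 := hx (show (0 : Fin 5) < 1 by decide)
  have h12 := hx (show (1 : Fin 5) < 2 by decide)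
  have h23 := hx (show (2 : Fin 5) < 3 by decide)
  have h34 := hx (show (3 : Fin 5) < 4 by decide)
  have k1 := euler_cocycle he' h12 h23 h34
  have k2 := euler_cocycle he h01 h12 h23
  have k3 := hea _ _ _ h01 h12
  have k4 := hea _ _ _ h23 h34
  have k5 := hc x hx
  rw [delta_eq] at k5 ⊢
  unfold cup22 at k5 ⊢
  simp only [Matrix.cons_val_zero, Matrix.cons_val_one, Matrix.cons_val] at k5 ⊢
  generalize x 0 = x0 at *
  generalize x 1 = x1 at *
  generalize x 2 = x2 at *
  generalize x 3 = x3 at *
  generalize x 4 = x4 at *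
  linear_combination k5 + (a x0 x1) * k1 - (a x3 x4) * k2 +
    (e' x2 x3 x4) * k3 + (e x0 x1 x2) * k4

end Pool.Agent.FC640
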